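import Mathlib

/-!
Weighted `t`-intersecting families of finite sets: shifting and the generating-set reduction.
-/

namespace Pool.Agent.Lib.MP_8815b4_co

open Finset

/-- A `t`-intersecting family of subsets of `range r`. -/
def Fam (r t : ℕ) (G : Finset (Finset ℕ)) : Prop :=
  (∀ A ∈ G, A ⊆ range r) ∧ ∀ A ∈ G, ∀ B ∈ G, t ≤ #(A ∩ B)

/-- The weight of a family. -/
noncomputable def V (φ : ℕ → ℝ) (G : Finset (Finset ℕ)) : ℝ := ∑ A ∈ G, φ #A

/-- Left-compressed families. -/
def Shifted (G : Finset (Finset ℕ)) : Prop :=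
  ∀ A ∈ G, ∀ i j : ℕ, i < j → j ∈ A → i ∉ A → insert i (A.erase j) ∈ G

/-- The lift of a family on `range r` to `range (r + 1)`. -/
def lift (r : ℕ) (G : Finset (Finset ℕ)) : Finset (Finset ℕ) := G ∪ G.image (insert r)

lemma not_mem_of_sub {r : ℕ} {A : Finset ℕ} (h : A ⊆ range r) : r ∉ A := fun hr => by
  simpa using h hr

lemma sum_image_insert {r : ℕ} {G : Finset (Finset ℕ)} (h : ∀ A ∈ G, r ∉ A) (φ : ℕ → ℝ) :
    ∑ A ∈ G.image (insert r), φ #A = ∑ A ∈ G, φ (#A + 1) := by
  rw [sum_image]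
  · exact sum_congr rfl fun A hA => by rw [card_insert_of_notMem (h A hA)]
  · intro A hA B hB hAB
    rw [← erase_insert (h A hA), ← erase_insert (h B hB)]
    exact congrArg (fun X => Finset.erase X r) hAB

lemma V_lift {r : ℕ} {G : Finset (Finset ℕ)} (h : ∀ A ∈ G, r ∉ A) (φ : ℕ → ℝ) :
    V φ (lift r G) = V (fun c => φ c + φ (c + 1)) G := by
  rw [V, lift, sum_union, sum_image_insert h, V, sum_add_distrib]
  rw [disjoint_left]
  intro A hA hA'
  obtain ⟨B, _, rfl⟩ := mem_image.1 hA'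
  exact h _ hA (mem_insert_self _ _)

lemma mem_lift {r : ℕ} {G : Finset (Finset ℕ)} {A : Finset ℕ} (hA : A ∈ lift r G) :
    ∃ B ∈ G, B ⊆ A ∧ (A = B ∨ A = insert r B) := by
  rcases mem_union.1 hA with h | h
  · exact ⟨A, h, Subset.rfl, Or.inl rfl⟩
  · obtain ⟨B, hB, rfl⟩ := mem_image.1 h
    exact ⟨B, hB, subset_insert _ _, Or.inr rfl⟩

lemma insert_sub {r : ℕ} {B : Finset ℕ} (h : B ⊆ range r) : insert r B ⊆ range (r + 1) := by
  rw [range_add_one]; exact insert_subset_insert _ h

lemma Fam_lift {r t : ℕ} {G : Finset (Finset ℕ)} (h : Fam r t G) : Fam (r + 1) t (lift r G) := by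
  constructor
  · intro A hA
    obtain ⟨B, hB, -, rfl | rfl⟩ := mem_lift hA
    · exact (h.1 _ hB).trans (range_subset_range.2 (Nat.le_succ r))
    · exact insert_sub (h.1 _ hB)
  · intro A hA A' hA'
    obtain ⟨B, hB, h1, -⟩ := mem_lift hA
    obtain ⟨B', hB', h2, -⟩ := mem_lift hA'
    exact (h.2 B hB B' hB').trans (card_le_card (inter_subset_inter h1 h2))

lemma card_swap {i j : ℕ} {X : Finset ℕ} (hj : j ∈ X) (hi : i ∉ X) :
    #(insert i (X.erase j)) = #X := by
  rw [card_insert_of_notMem (fun h => hi (mem_of_mem_erase h)), card_erase_add_one hj]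

lemma exists_shifted (r t : ℕ) (φ : ℕ → ℝ) (hφ : ∀ c, 0 ≤ φ c) :
    ∃ G, Fam r t G ∧ (∀ G', Fam r t G' → V φ G' ≤ V φ G) ∧ Shifted G ∧ ∀ A ∈ G, 0 < φ #A := by
  classical
  set S := (powerset (powerset (range r))).filter (Fam r t) with hS
  have memS : ∀ G, G ∈ S ↔ Fam r t G := by
    intro G
    rw [hS, mem_filter, mem_powerset]
    exact ⟨fun h => h.2, fun h => ⟨fun A hA => mem_powerset.2 (h.1 A hA), h⟩⟩
  have hne : S.Nonempty := ⟨∅, (memS _).2 ⟨by simp, by simp⟩⟩
  obtain ⟨G0, hG0, hmax⟩ := exists_max_image S (V φ) hne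
  set S' := S.filter (fun G => V φ G = V φ G0 ∧ ∀ A ∈ G, 0 < φ #A) with hS'
  have hne' : S'.Nonempty := by
    refine ⟨G0.filter (fun A => 0 < φ #A), mem_filter.2 ⟨(memS _).2 ⟨?_, ?_⟩, ?_, ?_⟩⟩
    · exact fun A hA => ((memS _).1 hG0).1 A (mem_filter.1 hA).1
    · exact fun A hA B hB => ((memS _).1 hG0).2 A (mem_filter.1 hA).1 B (mem_filter.1 hB).1
    · rw [V, V]
      refine sum_filter_of_ne fun A _ hA => lt_of_le_of_ne (hφ _) (Ne.symm hA)
    · exact fun A hA => (mem_filter.1 hA).2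
  obtain ⟨G, hG, hmin⟩ := exists_min_image S' (fun G => ∑ A ∈ G, ∑ x ∈ A, x) hne'
  obtain ⟨hGS, hGV, hGpos⟩ := mem_filter.1 hG
  have hF := (memS _).1 hGS
  refine ⟨G, hF, fun G' hG' => hGV ▸ hmax G' ((memS _).2 hG'), ?_, hGpos⟩
  intro A0 hA0 i j hij hj hi
  by_contra hnot
  set ψ : Finset ℕ → Finset ℕ := fun A =>
    if j ∈ A ∧ i ∉ A ∧ insert i (A.erase j) ∉ G then insert i (A.erase j) else A with hψ
  have hcases : ∀ A, (j ∈ A ∧ i ∉ A ∧ insert i (A.erase j) ∉ G ∧ ψ A = insert i (A.erase j)) ∨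
      (¬ (j ∈ A ∧ i ∉ A ∧ insert i (A.erase j) ∉ G) ∧ ψ A = A) := by
    intro A
    by_cases h : j ∈ A ∧ i ∉ A ∧ insert i (A.erase j) ∉ G
    · exact Or.inl ⟨h.1, h.2.1, h.2.2, if_pos h⟩
    · exact Or.inr ⟨h, if_neg h⟩
  have hinj : Set.InjOn ψ G := by
    intro A hA B hB hAB
    rcases hcases A with ⟨a1, a2, a3, a4⟩ | ⟨-, a4⟩ <;>
      rcases hcases B with ⟨b1, b2, b3, b4⟩ | ⟨-, b4⟩
    · rw [a4, b4] at hAB
      ext x
      have := congrArg (fun X => x ∈ X) hAB
      simp only [mem_insert, mem_erase, eq_iff_iff] at this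
      by_cases hx : x = i
      · subst hx; tauto
      · by_cases hx' : x = j
        · subst hx'; tauto
        · tauto
    · rw [a4, b4] at hAB; exact absurd (hAB ▸ hB) a3
    · rw [a4, b4] at hAB; exact absurd (hAB ▸ hA) b3
    · rw [a4, b4] at hAB; exact hAB
  have hcard : ∀ A, #(ψ A) = #A := by
    intro A
    rcases hcases A with ⟨a1, a2, -, a4⟩ | ⟨-, a4⟩
    · rw [a4, card_swap a1 a2]
    · rw [a4]
  have hmixed : ∀ A ∈ G, ∀ B ∈ G, j ∈ A → i ∉ A →
      ¬ (j ∈ B ∧ i ∉ B ∧ insert i (B.erase j) ∉ G) → t ≤ #(insert i (A.erase j) ∩ B) := by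
    intro A hA B hB a1 a2 hb
    by_cases b1 : j ∈ B
    · by_cases b2 : i ∈ B
      · have e : insert i (A.erase j) ∩ B = insert i ((A ∩ B).erase j) := by
          ext x; simp only [mem_inter, mem_insert, mem_erase]
          constructor
          · tauto
          · rintro (rfl | h) <;> tauto
        rw [e, card_swap (mem_inter.2 ⟨a1, b1⟩) (fun h => a2 (mem_inter.1 h).1)]
        exact hF.2 A hA B hB
      · have b3 : insert i (B.erase j) ∈ G := by tauto
        refine (hF.2 A hA _ b3).trans (card_le_card fun x => ?_)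
        simp only [mem_inter, mem_insert, mem_erase]
        rintro ⟨h1, rfl | h2⟩ <;> tauto
    · refine (hF.2 A hA B hB).trans (card_le_card fun x => ?_)
      simp only [mem_inter, mem_insert, mem_erase]
      rintro ⟨h1, h2⟩
      exact ⟨Or.inr ⟨fun h => b1 (h ▸ h2), h1⟩, h2⟩
  have hF' : Fam r t (G.image ψ) := by
    constructor
    · intro A' hA'
      obtain ⟨A, hA, rfl⟩ := mem_image.1 hA'
      rcases hcases A with ⟨a1, a2, -, a4⟩ | ⟨-, a4⟩
      · rw [a4]
        have := mem_range.1 (hF.1 A hA a1)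
        exact insert_subset (mem_range.2 (by omega)) ((erase_subset _ _).trans (hF.1 A hA))
      · rw [a4]; exact hF.1 A hA
    · intro A' hA' B' hB'
      obtain ⟨A, hA, rfl⟩ := mem_image.1 hA'
      obtain ⟨B, hB, rfl⟩ := mem_image.1 hB'
      rcases hcases A with ⟨a1, a2, a3, a4⟩ | ⟨a1, a4⟩ <;>
        rcases hcases B with ⟨b1, b2, b3, b4⟩ | ⟨b1, b4⟩ <;> rw [a4, b4]
      · have e : insert i (A.erase j) ∩ insert i (B.erase j) = insert i ((A ∩ B).erase j) := by
          ext x; simp only [mem_inter, mem_insert, mem_erase]; tauto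
        rw [e, card_swap (mem_inter.2 ⟨a1, b1⟩) (fun h => a2 (mem_inter.1 h).1)]
        exact hF.2 A hA B hB
      · exact hmixed A hA B hB a1 a2 b1
      · rw [inter_comm]; exact hmixed B hB A hA b1 b2 a1
      · exact hF.2 A hA B hB
  have hmem : G.image ψ ∈ S' := by
    refine mem_filter.2 ⟨(memS _).2 hF', ?_, ?_⟩
    · rw [← hGV, V, V, sum_image hinj]
      exact sum_congr rfl fun A _ => by rw [hcard]
    · intro A' hA'
      obtain ⟨A, hA, rfl⟩ := mem_image.1 hA'
      rw [hcard]; exact hGpos A hA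
  have hle := hmin _ hmem
  rw [sum_image hinj] at hle
  have hsw : ∀ A : Finset ℕ, j ∈ A → i ∉ A → ∑ x ∈ insert i (A.erase j), x < ∑ x ∈ A, x := by
    intro A a1 a2
    rw [sum_insert (fun h => a2 (mem_of_mem_erase h)), ← add_sum_erase A (fun x => x) a1]
    omega
  refine absurd hle (not_le.2 (sum_lt_sum (fun A _ => ?_) ⟨A0, hA0, ?_⟩))
  · rcases hcases A with ⟨a1, a2, -, a4⟩ | ⟨-, a4⟩
    · rw [a4]; exact (hsw A a1 a2).le
    · rw [a4]
  · rcases hcases A0 with ⟨a1, a2, -, a4⟩ | ⟨a1, -⟩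
    · rw [a4]; exact hsw A0 a1 a2
    · exact absurd ⟨hj, hi, hnot⟩ a1

lemma sum_by_card {G : Finset (Finset ℕ)} {σ : ℕ} (h : ∀ A ∈ G, #A ≤ σ) (g : ℕ → ℝ) :
    ∑ A ∈ G, g #A = ∑ a ∈ range (σ + 1), (#(G.filter (fun A => #A = a)) : ℝ) * g a := by
  rw [← sum_fiberwise_of_maps_to (g := fun A => #A) (t := range (σ + 1))
    (fun A hA => mem_range.2 (Nat.lt_succ_of_le (h A hA)))]
  refine sum_congr rfl fun a _ => ?_
  rw [sum_congr rfl (g := fun _ => g a) (fun A hA => by rw [(mem_filter.1 hA).2])]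
  simp

lemma exists_avoid {r a : ℕ} (hr : 1 ≤ r) {H : Finset (Finset ℕ)} (h : ∀ A ∈ H, A ⊆ range r)
    (ha : ∀ A ∈ H, #A = a) :
    ∃ j ∈ range r, ((r : ℝ) - a) * #H ≤ r * #(H.filter (fun A => j ∉ A)) := by
  refine exists_le_of_sum_le (s := range r) (f := fun _ => ((r : ℝ) - a) * #H)
    (g := fun j => (r : ℝ) * #(H.filter (fun A => j ∉ A))) ⟨0, mem_range.2 (by omega)⟩ ?_
  rw [sum_const, card_range, nsmul_eq_mul, ← mul_sum]
  apply le_of_eq
  congr 1
  simp_rw [card_filter]
  push_cast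
  rw [sum_comm, card_eq_sum_ones H]
  push_cast
  rw [mul_sum]
  refine sum_congr rfl fun A hA => ?_
  rw [← sum_filter, sum_const, nsmul_eq_mul, mul_one, mul_one]
  have e : (range r).filter (fun j => j ∉ A) = range r \ A := by ext x; simp
  rw [e, card_sdiff_of_subset (h A hA), card_range, ha A hA, Nat.cast_sub]
  rw [← ha A hA]
  simpa using card_le_card (h A hA)

lemma gen_step {r t : ℕ} (hr : 1 ≤ r) (ht : 1 ≤ t) (φ : ℕ → ℝ) (hφ : ∀ c, 0 ≤ φ c)
    {G : Finset (Finset ℕ)} (hF : Fam (r + 1) t G) (hS : Shifted G)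
    (hC1 : ∀ a b, a + b + 1 = r + t → φ (a + 1) * φ (b + 1) ≤ φ a * φ b)
    (hmid : ∀ a, 2 * a + 1 = r + t → r * φ (a + 1) ≤ ((r : ℝ) - a) * (φ a + φ (a + 1))) :
    ∃ G', Fam r t G' ∧ V φ G ≤ V (fun c => φ c + φ (c + 1)) G' := by
  classical
  set G0 := G.filter (fun A => r ∉ A) with hG0
  set G1 := (powerset (range r)).filter (fun A => insert r A ∈ G ∧ A ∉ G) with hG1
  have sub0 : ∀ A ∈ G0, A ⊆ range r := by
    intro A hA x hx
    obtain ⟨h1, h2⟩ := mem_filter.1 hA
    have := mem_range.1 (hF.1 A h1 hx)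
    have : x ≠ r := fun h => h2 (h ▸ hx)
    exact mem_range.2 (by omega)
  have sub1 : ∀ A ∈ G1, A ⊆ range r := fun A hA => mem_powerset.1 (mem_filter.1 hA).1
  have hdisj : Disjoint G0 G1 := by
    rw [disjoint_left]
    exact fun A h0 h1 => (mem_filter.1 h1).2.2 (mem_filter.1 h0).1
  have hV : V φ G ≤ ∑ A ∈ G0, (φ #A + φ (#A + 1)) + ∑ A ∈ G1, φ (#A + 1) := by
    rw [V, ← sum_filter_add_sum_filter_not G (fun A => r ∉ A), sum_add_distrib, add_assoc,
      ← sum_union hdisj, ← sum_image_insert (r := r)]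
    · refine add_le_add le_rfl (sum_le_sum_of_subset_of_nonneg ?_ fun _ _ _ => hφ _)
      intro A hA
      obtain ⟨h1, h2⟩ := mem_filter.1 hA
      rw [not_not] at h2
      refine mem_image.2 ⟨A.erase r, ?_, insert_erase h2⟩
      by_cases h3 : A.erase r ∈ G
      · exact mem_union_left _ (mem_filter.2 ⟨h3, notMem_erase _ _⟩)
      · refine mem_union_right _ (mem_filter.2 ⟨mem_powerset.2 fun x hx => ?_, ?_, h3⟩)
        · have := mem_range.1 (hF.1 A h1 (mem_of_mem_erase hx))
          have := ne_of_mem_erase hx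
          exact mem_range.2 (by omega)
        · rw [insert_erase h2]; exact h1
    · intro A hA
      rcases mem_union.1 hA with h | h
      · exact not_mem_of_sub (sub0 A h)
      · exact not_mem_of_sub (sub1 A h)
  set σ := r + t - 1 with hσ
  set N : ℕ → ℝ := fun a => (#(G1.filter (fun A => #A = a)) : ℝ) with hN
  have hN0 : ∀ a, 0 ≤ N a := fun a => Nat.cast_nonneg _
  obtain ⟨j, hj, hjav⟩ := exists_avoid (a := σ / 2) hr (H := G1.filter (fun A => #A = σ / 2))
    (fun A hA => sub1 A (mem_filter.1 hA).1) (fun A hA => (mem_filter.1 hA).2)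
  set Good : ℕ → Prop := fun a => (2 * a < σ ∧ N (σ - a) * φ (σ - a + 1) ≤ N a * φ a) ∨
    (σ < 2 * a ∧ ¬ (N a * φ (a + 1) ≤ N (σ - a) * φ (σ - a))) with hGood
  set S := G1.filter (fun A => Good #A ∨ (2 * #A = σ ∧ j ∉ A)) with hSdef
  have hconf : ∀ A ∈ G1, ∀ B ∈ G1, #(A ∩ B) < t → A ∪ B = range r ∧ #A + #B = σ := by
    intro A hA B hB hlt
    have hAi := (mem_filter.1 hA).2.1
    have hBi := (mem_filter.1 hB).2.1
    have hrA := not_mem_of_sub (sub1 A hA)
    have hrB := not_mem_of_sub (sub1 B hB)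
    have hu : A ∪ B = range r := by
      refine Subset.antisymm (union_subset (sub1 A hA) (sub1 B hB)) fun i hi => ?_
      by_contra hni
      rw [mem_union, not_or] at hni
      have hi' := mem_range.1 hi
      have h1 := hS _ hAi i r hi' (mem_insert_self _ _) (by
        rw [mem_insert, not_or]; exact ⟨by omega, hni.1⟩)
      rw [erase_insert hrA] at h1
      have h2 := hF.2 _ h1 _ hBi
      have e : insert i A ∩ insert r B = A ∩ B := by
        ext x; simp only [mem_inter, mem_insert]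
        constructor
        · rintro ⟨rfl | h3, rfl | h4⟩
          · omega
          · exact absurd h4 hni.2
          · exact absurd h3 hrA
          · exact ⟨h3, h4⟩
        · tauto
      rw [e] at h2; omega
    refine ⟨hu, ?_⟩
    have h2 := hF.2 _ hAi _ hBi
    rw [← insert_inter_distrib, card_insert_of_notMem (fun h => hrA (mem_inter.1 h).1)] at h2
    have h3 := card_union_add_card_inter A B
    rw [hu, card_range] at h3
    omega
  refine ⟨G0 ∪ S, ⟨?_, ?_⟩, hV.trans ?_⟩
  · intro A hA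
    rcases mem_union.1 hA with h | h
    · exact sub0 A h
    · exact sub1 A (mem_filter.1 h).1
  · have hmix : ∀ A ∈ G0, ∀ B ∈ G1, t ≤ #(A ∩ B) := by
      intro A hA B hB
      have h2 := hF.2 _ (mem_filter.1 hA).1 _ (mem_filter.1 hB).2.1
      rwa [inter_insert_of_notMem (mem_filter.1 hA).2] at h2
    intro A hA B hB
    rcases mem_union.1 hA with h | h <;> rcases mem_union.1 hB with h' | h'
    · exact hF.2 _ (mem_filter.1 h).1 _ (mem_filter.1 h').1
    · exact hmix A h B (mem_filter.1 h').1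
    · rw [inter_comm]; exact hmix B h' A (mem_filter.1 h).1
    · by_contra hlt
      obtain ⟨hA1, hA2⟩ := mem_filter.1 h
      obtain ⟨hB1, hB2⟩ := mem_filter.1 h'
      obtain ⟨hu, hsum⟩ := hconf A hA1 B hB1 (not_le.1 hlt)
      have eA : σ - #A = #B := by omega
      have eB : σ - #B = #A := by omega
      simp only [hGood, eA, eB] at hA2 hB2
      rcases hA2 with (⟨a1, a2⟩ | ⟨a1, a2⟩) | ⟨a1, a2⟩ <;>
        rcases hB2 with (⟨b1, b2⟩ | ⟨b1, b2⟩) | ⟨b1, b2⟩ <;>
        first
          | omega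
          | exact b2 a2
          | exact a2 b2
          | (rw [← hu, mem_union] at hj; tauto)
  · rw [V, sum_union (hdisj.mono_right (filter_subset _ _))]
    refine add_le_add le_rfl ?_
    have hc1 : ∀ A ∈ G1, #A ≤ σ := by
      intro A hA
      have := card_le_card (sub1 A hA)
      rw [card_range] at this; omega
    rw [sum_by_card hc1 (fun a => φ (a + 1)),
      sum_by_card (fun A hA => hc1 A (mem_filter.1 hA).1) (fun a => φ a + φ (a + 1))]
    set N' : ℕ → ℝ := fun a => (#(S.filter (fun A => #A = a)) : ℝ) with hN'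
    have hN'0 : ∀ a, 0 ≤ N' a := fun a => Nat.cast_nonneg _
    have hN'good : ∀ a, Good a → N' a = N a := by
      intro a ha
      simp only [hN', hN]
      congr 2
      ext A
      simp only [hSdef, mem_filter]
      constructor
      · tauto
      · rintro ⟨h1, h2⟩
        exact ⟨⟨h1, Or.inl (h2 ▸ ha)⟩, h2⟩
    set D : ℕ → ℝ := fun a => N' a * (φ a + φ (a + 1)) - N a * φ (a + 1) with hD
    have hlow : ∀ a b, a + b = σ → a < b → 0 ≤ D a + D b := by
      intro a b hab hlt
      have eA : σ - a = b := by omega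
      have eB : σ - b = a := by omega
      have n1 := hφ a
      have n2 := hφ (a + 1)
      have n3 := hφ b
      have n4 := hφ (b + 1)
      by_cases hc : N b * φ (b + 1) ≤ N a * φ a
      · have hg : Good a := Or.inl ⟨by omega, by rw [eA]; exact hc⟩
        simp only [hD, hN'good a hg]
        have := mul_nonneg (hN'0 b) (add_nonneg n3 n4)
        linarith
      · have hg : Good b := Or.inr ⟨by omega, by rw [eB]; exact hc⟩
        simp only [hD, hN'good b hg]
        have h0 := mul_nonneg (hN'0 a) (add_nonneg n1 n2)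
        have h1 := hC1 a b (by omega)
        have h2 : N a * φ (a + 1) ≤ N b * φ b := by
          by_contra h3
          push Not at hc h3
          have h4 := mul_lt_mul'' hc h3 (mul_nonneg (hN0 a) n1) (mul_nonneg (hN0 b) n3)
          have h5 := mul_le_mul_of_nonneg_left h1 (mul_nonneg (hN0 a) (hN0 b))
          linarith
        linarith
    have hpair : ∀ a ∈ range (σ + 1), 0 ≤ D a + D (σ - a) := by
      intro a ha
      have ha' := mem_range.1 ha
      rcases lt_trichotomy a (σ - a) with h | h | h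
      · exact hlow a (σ - a) (by omega) h
      · rw [← h]
        have e : σ / 2 = a := by omega
        rw [e] at hjav
        have h1 := hmid a (by omega)
        have h2 : (#((G1.filter (fun A => #A = a)).filter (fun A => j ∉ A)) : ℝ) ≤ N' a := by
          simp only [hN']
          refine Nat.cast_le.2 (card_le_card fun A hA => ?_)
          simp only [hSdef, mem_filter] at hA ⊢
          exact ⟨⟨hA.1.1, Or.inr ⟨by omega, hA.2⟩⟩, hA.1.2⟩
        have hr' : (0 : ℝ) < r := by exact_mod_cast hr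
        have h3 : ((r : ℝ) - a) * N a ≤ r * N' a :=
          hjav.trans (mul_le_mul_of_nonneg_left h2 hr'.le)
        have h4 := mul_le_mul_of_nonneg_right h3 (add_nonneg (hφ a) (hφ (a + 1)))
        have h5 := mul_le_mul_of_nonneg_right h1 (hN0 a)
        have h6 : (r : ℝ) * (N a * φ (a + 1)) ≤ r * (N' a * (φ a + φ (a + 1))) := by linarith
        have h7 := le_of_mul_le_mul_left h6 hr'
        simp only [hD]
        linarith
      · rw [add_comm]; exact hlow (σ - a) a (by omega) h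
    have hsum := sum_nonneg hpair
    rw [sum_add_distrib, sum_flip D] at hsum
    have : 0 ≤ ∑ a ∈ range (σ + 1), D a := by linarith
    simp only [hD, sum_sub_distrib] at this
    linarith

end Pool.Agent.Lib.MP_8815b4_co
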