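import Pool.Agent.Lib.MP_8815b4_co.Comb1

/-!
Weighted `t`-intersecting families of finite sets: the symmetrisation (pushing-pulling) step.
-/

namespace Pool.Agent.Lib.MP_8815b4_co

open Finset

/-- Invariance under permutations of `range l`. -/
def Symm (l : ℕ) (G : Finset (Finset ℕ)) : Prop :=
  ∀ A ∈ G, ∀ B : Finset ℕ, B \ range l = A \ range l → #(B ∩ range l) = #(A ∩ range l) → B ∈ G

/-- All sets with an `a`-element trace on `range l` and outer part `Y` belong to `G`. -/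
def Inn (l : ℕ) (G : Finset (Finset ℕ)) (a : ℕ) (Y : Finset ℕ) : Prop :=
  ∀ P ⊆ range l, #P = a → P ∪ Y ∈ G

/-- All elements are at least `l`. -/
def Out (l : ℕ) (Y : Finset ℕ) : Prop := ∀ x ∈ Y, l ≤ x

lemma card_inter_split {l : ℕ} {P Q Y Z : Finset ℕ} (hP : P ⊆ range l) (hQ : Q ⊆ range l)
    (hY : Out l Y) (hZ : Out l Z) : #((P ∪ Y) ∩ (Q ∪ Z)) = #(P ∩ Q) + #(Y ∩ Z) := by
  rw [← card_union_of_disjoint]
  · congr 1
    ext x
    simp only [mem_inter, mem_union]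
    constructor
    · rintro ⟨h1 | h1, h2 | h2⟩
      · exact Or.inl ⟨h1, h2⟩
      · have := mem_range.1 (hP h1); have := hZ x h2; omega
      · have := mem_range.1 (hQ h2); have := hY x h1; omega
      · exact Or.inr ⟨h1, h2⟩
    · tauto
  · rw [disjoint_left]
    intro x h1 h2
    have := mem_range.1 (hP (mem_inter.1 h1).1)
    have := hY x (mem_inter.1 h2).1
    omega

lemma card_union_split {l : ℕ} {P Y : Finset ℕ} (hP : P ⊆ range l) (hY : Out l Y) :
    #(P ∪ Y) = #P + #Y := by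
  have := card_inter_split hP hP hY hY
  simpa using this

lemma card_inter_ge {l : ℕ} {P Q : Finset ℕ} (hP : P ⊆ range l) (hQ : Q ⊆ range l) :
    #P + #Q ≤ #(P ∩ Q) + l := by
  have h1 := card_union_add_card_inter P Q
  have h2 := card_le_card (union_subset hP hQ)
  rw [card_range] at h2
  omega

lemma exists_extremal {l a c : ℕ} (ha : a ≤ l) (hc : c ≤ l) :
    ∃ P ⊆ range l, ∃ Q ⊆ range l, #P = a ∧ #Q = c ∧ #(P ∩ Q) = a + c - l := by
  refine ⟨range a, range_subset_range.2 ha, Ico (l - c) l, fun x hx => ?_, card_range a, ?_, ?_⟩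
  · exact mem_range.2 (mem_Ico.1 hx).2
  · rw [Nat.card_Ico]; omega
  · have : range a ∩ Ico (l - c) l = Ico (l - c) a := by
      ext x; simp only [mem_inter, mem_range, mem_Ico]; omega
    rw [this, Nat.card_Ico]; omega

lemma out_sdiff (l : ℕ) (B : Finset ℕ) : Out l (B \ range l) := fun x hx => by
  have := (mem_sdiff.1 hx).2
  rw [mem_range] at this; omega

lemma split_eq (l : ℕ) (B : Finset ℕ) : B = (B ∩ range l) ∪ (B \ range l) := by
  ext x; simp only [mem_union, mem_inter, mem_sdiff]; tauto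

lemma union_inter_range {l : ℕ} {P Y : Finset ℕ} (hP : P ⊆ range l) (hY : Out l Y) :
    (P ∪ Y) ∩ range l = P := by
  ext x
  simp only [mem_inter, mem_union]
  constructor
  · rintro ⟨h1 | h1, h2⟩
    · exact h1
    · have := mem_range.1 h2; have := hY x h1; omega
  · exact fun h => ⟨Or.inl h, hP h⟩

lemma union_sdiff_range {l : ℕ} {P Y : Finset ℕ} (hP : P ⊆ range l) (hY : Out l Y) :
    (P ∪ Y) \ range l = Y := by
  ext x
  simp only [mem_sdiff, mem_union]
  constructor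
  · rintro ⟨h1 | h1, h2⟩
    · exact absurd (hP h1) h2
    · exact h1
  · exact fun h => ⟨Or.inr h, fun h2 => by have := mem_range.1 h2; have := hY x h; omega⟩

lemma Symm.inn {l : ℕ} {G : Finset (Finset ℕ)} (h : Symm l G) {P Y : Finset ℕ}
    (hP : P ⊆ range l) (hY : Out l Y) (hm : P ∪ Y ∈ G) : Inn l G #P Y := by
  intro Q hQ hc
  refine h _ hm _ ?_ ?_
  · rw [union_sdiff_range hQ hY, union_sdiff_range hP hY]
  · rw [union_inter_range hQ hY, union_inter_range hP hY, hc]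

lemma lemC0 {R t l a c : ℕ} {G : Finset (Finset ℕ)} (hF : Fam R t G) {Y Z : Finset ℕ}
    (ha : a ≤ l) (hc : c ≤ l) (hY : Out l Y) (hZ : Out l Z) (h1 : Inn l G a Y)
    (h2 : Inn l G c Z) : t ≤ a + c - l + #(Y ∩ Z) := by
  obtain ⟨P, hP, Q, hQ, e1, e2, e3⟩ := exists_extremal ha hc
  have := hF.2 _ (h1 P hP e1) _ (h2 Q hQ e2)
  rwa [card_inter_split hP hQ hY hZ, e3] at this

lemma out_of_sub {l R : ℕ} {Y : Finset ℕ} (h : Y ⊆ Ico (l + 1) R) : Out l Y := fun x hx => by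
  have := (mem_Ico.1 (h hx)).1; omega

lemma notMem_of_sub {l R : ℕ} {Y : Finset ℕ} (h : Y ⊆ Ico (l + 1) R) : l ∉ Y := fun hx => by
  have := (mem_Ico.1 (h hx)).1; omega

lemma out_insert {l : ℕ} {Y : Finset ℕ} (h : Out l Y) : Out l (insert l Y) := fun x hx => by
  rcases mem_insert.1 hx with rfl | hx
  · exact le_rfl
  · exact h x hx

lemma lemC1 {R t l a c : ℕ} {G : Finset (Finset ℕ)} (hF : Fam R t G) (hS : Shifted G)
    {Y Z : Finset ℕ} (ha : a ≤ l) (hc : c ≤ l) (hY : Y ⊆ Ico (l + 1) R) (hZ : Z ⊆ Ico (l + 1) R)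
    (h1 : Inn l G a Y) (h2 : Inn l G c Z) (h : a + c - l + #(Y ∩ Z) ≤ t) : #(Y ∩ Z) = 0 := by
  by_contra hne
  obtain ⟨j, hj⟩ := card_pos.1 (Nat.pos_of_ne_zero hne)
  obtain ⟨P, hP, Q, hQ, e1, e2, e3⟩ := exists_extremal ha hc
  have hjY := (mem_inter.1 hj).1
  have hjZ := (mem_inter.1 hj).2
  have hlj := (mem_Ico.1 (hY hjY)).1
  have hlP : l ∉ P ∪ Y := by
    rw [mem_union, not_or]; exact ⟨not_mem_of_sub hP, notMem_of_sub hY⟩
  have hlQ : l ∉ Q ∪ Z := by
    rw [mem_union, not_or]; exact ⟨not_mem_of_sub hQ, notMem_of_sub hZ⟩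
  have h3 := hS _ (h1 P hP e1) l j (by omega) (mem_union_right _ hjY) hlP
  have h4 := hF.2 _ h3 _ (h2 Q hQ e2)
  rw [insert_inter_of_notMem hlQ, erase_inter,
    card_erase_of_mem (mem_inter.2 ⟨mem_union_right _ hjY, mem_union_right _ hjZ⟩),
    card_inter_split hP hQ (out_of_sub hY) (out_of_sub hZ), e3] at h4
  omega

open Classical in
/-- The outer parts of the sets that obstruct symmetry on `range (l + 1)`. -/
noncomputable def Xs (l R : ℕ) (G : Finset (Finset ℕ)) (a : ℕ) : Finset (Finset ℕ) :=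
  (powerset (Ico (l + 1) R)).filter (fun Y => Inn l G a Y ∧ ¬ Inn l G (a - 1) (insert l Y))

lemma mem_Xs {l R : ℕ} {G : Finset (Finset ℕ)} {a : ℕ} {Y : Finset ℕ} :
    Y ∈ Xs l R G a ↔ Y ⊆ Ico (l + 1) R ∧ Inn l G a Y ∧ ¬ Inn l G (a - 1) (insert l Y) := by
  classical
  unfold Xs
  rw [mem_filter, mem_powerset]

/-- The obstructing sets. -/
noncomputable def Xa (l R : ℕ) (G : Finset (Finset ℕ)) (a : ℕ) : Finset (Finset ℕ) :=
  (powersetCard a (range l) ×ˢ Xs l R G a).image (fun p => p.1 ∪ p.2)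

/-- The sets obtained from the obstructing sets by moving an element to `l`. -/
noncomputable def Xp (l R : ℕ) (G : Finset (Finset ℕ)) (a : ℕ) : Finset (Finset ℕ) :=
  (powersetCard (a - 1) (range l) ×ˢ Xs l R G a).image (fun p => p.1 ∪ insert l p.2)

lemma mem_Xa {l R : ℕ} {G : Finset (Finset ℕ)} {a : ℕ} {A : Finset ℕ} :
    A ∈ Xa l R G a ↔ ∃ P ⊆ range l, #P = a ∧ ∃ Y ∈ Xs l R G a, A = P ∪ Y := by
  simp only [Xa, mem_image, mem_product, mem_powersetCard, Prod.exists]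
  constructor
  · rintro ⟨P, Y, ⟨⟨h1, h2⟩, h3⟩, rfl⟩; exact ⟨P, h1, h2, Y, h3, rfl⟩
  · rintro ⟨P, h1, h2, Y, h3, rfl⟩; exact ⟨P, Y, ⟨⟨h1, h2⟩, h3⟩, rfl⟩

lemma mem_Xp {l R : ℕ} {G : Finset (Finset ℕ)} {a : ℕ} {A : Finset ℕ} :
    A ∈ Xp l R G a ↔ ∃ P ⊆ range l, #P = a - 1 ∧ ∃ Y ∈ Xs l R G a, A = P ∪ insert l Y := by
  simp only [Xp, mem_image, mem_product, mem_powersetCard, Prod.exists]
  constructor
  · rintro ⟨P, Y, ⟨⟨h1, h2⟩, h3⟩, rfl⟩; exact ⟨P, h1, h2, Y, h3, rfl⟩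
  · rintro ⟨P, h1, h2, Y, h3, rfl⟩; exact ⟨P, Y, ⟨⟨h1, h2⟩, h3⟩, rfl⟩

lemma sum_Xa (l R : ℕ) (G : Finset (Finset ℕ)) (a : ℕ) (g : ℕ → ℝ) :
    ∑ A ∈ Xa l R G a, g #A = (l.choose a : ℝ) * ∑ Y ∈ Xs l R G a, g (a + #Y) := by
  rw [Xa, sum_image, sum_product]
  · rw [sum_congr rfl (g := fun _ => ∑ Y ∈ Xs l R G a, g (a + #Y))]
    · rw [sum_const, card_powersetCard, card_range, nsmul_eq_mul]
    · intro P hP
      obtain ⟨h1, h2⟩ := mem_powersetCard.1 hP
      refine sum_congr rfl fun Y hY => ?_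
      rw [card_union_split h1 (out_of_sub (mem_Xs.1 hY).1), h2]
  · rintro ⟨P, Y⟩ h1 ⟨Q, Z⟩ h2 h
    obtain ⟨hP, hY⟩ := mem_product.1 (mem_coe.1 h1)
    obtain ⟨hQ, hZ⟩ := mem_product.1 (mem_coe.1 h2)
    dsimp only at hP hY hQ hZ
    have hP' := (mem_powersetCard.1 hP).1
    have hQ' := (mem_powersetCard.1 hQ).1
    have hY' := out_of_sub (mem_Xs.1 hY).1
    have hZ' := out_of_sub (mem_Xs.1 hZ).1
    have h' : P ∪ Y = Q ∪ Z := h
    have e1 : P = Q := by rw [← union_inter_range hP' hY', h', union_inter_range hQ' hZ']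
    have e2 : Y = Z := by rw [← union_sdiff_range hP' hY', h', union_sdiff_range hQ' hZ']
    rw [e1, e2]

lemma sum_Xp (l R : ℕ) (G : Finset (Finset ℕ)) {a : ℕ} (ha : 1 ≤ a) (g : ℕ → ℝ) :
    ∑ A ∈ Xp l R G a, g #A = (l.choose (a - 1) : ℝ) * ∑ Y ∈ Xs l R G a, g (a + #Y) := by
  rw [Xp, sum_image, sum_product]
  · rw [sum_congr rfl (g := fun _ => ∑ Y ∈ Xs l R G a, g (a + #Y))]
    · rw [sum_const, card_powersetCard, card_range, nsmul_eq_mul]
    · intro P hP
      obtain ⟨h1, h2⟩ := mem_powersetCard.1 hP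
      refine sum_congr rfl fun Y hY => ?_
      rw [card_union_split h1 (out_insert (out_of_sub (mem_Xs.1 hY).1)), h2,
        card_insert_of_notMem (notMem_of_sub (mem_Xs.1 hY).1)]
      congr 1; omega
  · rintro ⟨P, Y⟩ h1 ⟨Q, Z⟩ h2 h
    obtain ⟨hP, hY⟩ := mem_product.1 (mem_coe.1 h1)
    obtain ⟨hQ, hZ⟩ := mem_product.1 (mem_coe.1 h2)
    dsimp only at hP hY hQ hZ
    have hP' := (mem_powersetCard.1 hP).1
    have hQ' := (mem_powersetCard.1 hQ).1
    have hY' := out_insert (out_of_sub (mem_Xs.1 hY).1)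
    have hZ' := out_insert (out_of_sub (mem_Xs.1 hZ).1)
    have h' : P ∪ insert l Y = Q ∪ insert l Z := h
    have e1 : P = Q := by rw [← union_inter_range hP' hY', h', union_inter_range hQ' hZ']
    have e2 : insert l Y = insert l Z := by
      rw [← union_sdiff_range hP' hY', h', union_sdiff_range hQ' hZ']
    have e3 : Y = Z := by
      rw [← erase_insert (notMem_of_sub (mem_Xs.1 hY).1), e2,
        erase_insert (notMem_of_sub (mem_Xs.1 hZ).1)]
    rw [e1, e3]

lemma Xa_sub {l R : ℕ} {G : Finset (Finset ℕ)} {a : ℕ} : Xa l R G a ⊆ G := by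
  intro A hA
  obtain ⟨P, h1, h2, Y, h3, rfl⟩ := mem_Xa.1 hA
  exact (mem_Xs.1 h3).2.1 P h1 h2

lemma Xp_not {l R : ℕ} {G : Finset (Finset ℕ)} (hsym : Symm l G) {a : ℕ} {A : Finset ℕ}
    (hA : A ∈ Xp l R G a) : A ∉ G := by
  obtain ⟨P, h1, h2, Y, h3, rfl⟩ := mem_Xp.1 hA
  intro hm
  have := hsym.inn h1 (out_insert (out_of_sub (mem_Xs.1 h3).1)) hm
  rw [h2] at this
  exact (mem_Xs.1 h3).2.2 this

lemma Xp_sub {l R : ℕ} (hl : l < R) {G : Finset (Finset ℕ)} {a : ℕ} {A : Finset ℕ}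
    (hA : A ∈ Xp l R G a) : A ⊆ range R := by
  obtain ⟨P, h1, h2, Y, h3, rfl⟩ := mem_Xp.1 hA
  refine union_subset (h1.trans (range_subset_range.2 hl.le)) (insert_subset (mem_range.2 hl) ?_)
  exact fun x hx => mem_range.2 (mem_Ico.1 ((mem_Xs.1 h3).1 hx)).2

lemma lemA {R t l a : ℕ} {G : Finset (Finset ℕ)} (hF : Fam R t G) (hS : Shifted G)
    (hsym : Symm l G) (ha1 : 1 ≤ a) (ha : a ≤ l) {P Y B : Finset ℕ} (hP : P ⊆ range l)
    (hPc : #P = a - 1) (hY : Y ⊆ Ico (l + 1) R) (h1 : Inn l G a Y) (hB : B ∈ G)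
    (hlt : #((P ∪ insert l Y) ∩ B) < t) :
    ∃ c, a + c = l + t ∧ ∃ Q ⊆ range l, #Q = c ∧ ∃ Z ∈ Xs l R G c, B = Q ∪ Z ∧ #(Y ∩ Z) = 0 := by
  have hQ : B ∩ range l ⊆ range l := inter_subset_right
  have hZ := out_sdiff l B
  have hBe := split_eq l B
  set Q := B ∩ range l
  set Z := B \ range l with hZdef
  have hc : #Q ≤ l := by simpa using card_le_card hQ
  have h2 : Inn l G #Q Z := hsym.inn hQ hZ (hBe ▸ hB)
  have hYo := out_of_sub hY
  have hlY := notMem_of_sub hY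
  rw [hBe, card_inter_split hP hQ (out_insert hYo) hZ] at hlt
  have h3 := card_inter_ge hP hQ
  have h4 := lemC0 hF ha hc hYo hZ h1 h2
  have hlZ : l ∉ Z := by
    intro h
    rw [insert_inter_of_mem h, card_insert_of_notMem (fun h' => hlY (mem_inter.1 h').1)] at hlt
    omega
  rw [insert_inter_of_notMem hlZ] at hlt
  have hZs : Z ⊆ Ico (l + 1) R := by
    intro x hx
    have h5 := hZ x hx
    have h6 : x ≠ l := fun h => hlZ (h ▸ hx)
    have h7 := mem_range.1 (hF.1 B hB (mem_sdiff.1 hx).1)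
    exact mem_Ico.2 ⟨by omega, h7⟩
  have h5 := lemC1 hF hS ha hc hY hZs h1 h2 (by omega)
  refine ⟨#Q, by omega, Q, hQ, rfl, Z, mem_Xs.2 ⟨hZs, h2, fun h6 => ?_⟩, hBe, h5⟩
  have h7 := lemC0 hF ha (by omega) hYo (out_insert hZ) h1 h6
  rw [inter_insert_of_notMem hlY] at h7
  omega

lemma lemB {R t l a : ℕ} {G : Finset (Finset ℕ)} (hF : Fam R t G) (hS : Shifted G)
    (ha : a ≤ l) {A B : Finset ℕ} (hA : A ∈ Xp l R G a) (hB : B ∈ Xp l R G a)
    (hne : 2 * a ≠ l + t) : t ≤ #(A ∩ B) := by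
  obtain ⟨P, p1, p2, Y, p3, rfl⟩ := mem_Xp.1 hA
  obtain ⟨Q, q1, q2, Z, q3, rfl⟩ := mem_Xp.1 hB
  obtain ⟨y1, y2, -⟩ := mem_Xs.1 p3
  obtain ⟨z1, z2, -⟩ := mem_Xs.1 q3
  rw [card_inter_split p1 q1 (out_insert (out_of_sub y1)) (out_insert (out_of_sub z1)),
    ← insert_inter_distrib,
    card_insert_of_notMem (fun h' => notMem_of_sub y1 (mem_inter.1 h').1)]
  have h3 := card_inter_ge p1 q1
  have h4 := lemC0 hF ha ha (out_of_sub y1) (out_of_sub z1) y2 z2
  by_contra hlt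
  have h5 := lemC1 hF hS ha ha y1 z1 y2 z2 (by omega)
  omega

lemma lemA' {R t l a b : ℕ} {G : Finset (Finset ℕ)} (hF : Fam R t G) (hS : Shifted G)
    (hsym : Symm l G) (ha1 : 1 ≤ a) (ha : a ≤ l) (hab : a + b = l + t) {A B : Finset ℕ}
    (hA : A ∈ Xp l R G a) (hB : B ∈ G \ Xa l R G b) : t ≤ #(A ∩ B) := by
  obtain ⟨P, p1, p2, Y, p3, rfl⟩ := mem_Xp.1 hA
  obtain ⟨y1, y2, -⟩ := mem_Xs.1 p3
  by_contra hlt
  obtain ⟨c, hc, Q, q1, q2, Z, z1, z2, -⟩ :=
    lemA hF hS hsym ha1 ha p1 p2 y1 y2 (mem_sdiff.1 hB).1 (not_le.1 hlt)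
  have : c = b := by omega
  subst this
  exact (mem_sdiff.1 hB).2 (mem_Xa.2 ⟨Q, q1, q2, Z, z1, z2⟩)

lemma exch {R t l a b : ℕ} {G : Finset (Finset ℕ)} {φ : ℕ → ℝ} (hF : Fam R t G) (hS : Shifted G)
    (hsym : Symm l G) (hopt : ∀ G', Fam R t G' → V φ G' ≤ V φ G) (hl : l < R)
    (ha1 : 1 ≤ a) (ha : a ≤ l) (hab : a + b = l + t) (hne : a ≠ b) :
    (l.choose (a - 1) : ℝ) * ∑ Y ∈ Xs l R G a, φ (a + #Y)
      ≤ (l.choose b : ℝ) * ∑ Y ∈ Xs l R G b, φ (b + #Y) := by
  have hF' : Fam R t ((G \ Xa l R G b) ∪ Xp l R G a) := by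
    constructor
    · intro A hA
      rcases mem_union.1 hA with h | h
      · exact hF.1 A (mem_sdiff.1 h).1
      · exact Xp_sub hl h
    · intro A hA B hB
      rcases mem_union.1 hA with h | h <;> rcases mem_union.1 hB with h' | h'
      · exact hF.2 A (mem_sdiff.1 h).1 B (mem_sdiff.1 h').1
      · rw [inter_comm]; exact lemA' hF hS hsym ha1 ha hab h' h
      · exact lemA' hF hS hsym ha1 ha hab h h'
      · exact lemB hF hS ha h h' (by omega)
  have h := hopt _ hF'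
  rw [V, V, sum_union, sum_sdiff_eq_sub Xa_sub, sum_Xa, sum_Xp _ _ _ ha1] at h
  · linarith
  · rw [disjoint_right]
    exact fun A h1 h2 => Xp_not hsym h1 (mem_sdiff.1 h2).1

lemma add_one {R t : ℕ} {G : Finset (Finset ℕ)} {φ : ℕ → ℝ} (hF : Fam R t G)
    (hopt : ∀ G', Fam R t G' → V φ G' ≤ V φ G) {B : Finset ℕ} (hB : B ⊆ range R) (hBt : t ≤ #B)
    (hint : ∀ A ∈ G, t ≤ #(B ∩ A)) (hpos : 0 < φ #B) : B ∈ G := by
  by_contra hn
  have hF' : Fam R t (insert B G) := by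
    constructor
    · intro A hA
      rcases mem_insert.1 hA with rfl | h
      · exact hB
      · exact hF.1 A h
    · intro A hA A' hA'
      rcases mem_insert.1 hA with rfl | h <;> rcases mem_insert.1 hA' with rfl | h'
      · rwa [inter_self]
      · exact hint _ h'
      · rw [inter_comm]; exact hint _ h
      · exact hF.2 A h A' h'
  have h := hopt _ hF'
  rw [V, V, sum_insert hn] at h
  linarith

lemma weight_pos {l R a : ℕ} {G : Finset (Finset ℕ)} {φ : ℕ → ℝ} (hpos : ∀ A ∈ G, 0 < φ #A)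
    (ha : a ≤ l) {Y : Finset ℕ} (hY : Y ∈ Xs l R G a) : 0 < φ (a + #Y) := by
  have h := hpos _ ((mem_Xs.1 hY).2.1 (range a) (range_subset_range.2 ha) (card_range a))
  rwa [card_union_split (range_subset_range.2 ha) (out_of_sub (mem_Xs.1 hY).1), card_range] at h

lemma Xs_empty_of_ne {R t l a : ℕ} {G : Finset (Finset ℕ)} {φ : ℕ → ℝ} (hφ : ∀ c, 0 ≤ φ c)
    (hF : Fam R t G) (hS : Shifted G) (hsym : Symm l G)
    (hopt : ∀ G', Fam R t G' → V φ G' ≤ V φ G) (hpos : ∀ A ∈ G, 0 < φ #A) (hl : l < R)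
    (ht : 2 ≤ t) (ha1 : 1 ≤ a) (ha : a ≤ l) (hne : 2 * a ≠ l + t) : Xs l R G a = ∅ := by
  by_contra hn
  obtain ⟨b, hab⟩ : ∃ b, a + b = l + t := ⟨l + t - a, by omega⟩
  have h1 := exch hF hS hsym hopt hl ha1 ha hab (by omega)
  have hωa : 0 < ∑ Y ∈ Xs l R G a, φ (a + #Y) :=
    sum_pos (fun Y hY => weight_pos hpos ha hY) (nonempty_iff_ne_empty.2 hn)
  have hωb : 0 ≤ ∑ Y ∈ Xs l R G b, φ (b + #Y) := sum_nonneg fun _ _ => hφ _
  have hca : (0 : ℝ) < l.choose (a - 1) := by exact_mod_cast Nat.choose_pos (by omega)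
  by_cases hb : l < b
  · rw [Nat.choose_eq_zero_of_lt hb] at h1
    have := mul_pos hca hωa
    push_cast at h1
    linarith
  have h2 := exch hF hS hsym hopt hl (a := b) (b := a) (by omega) (by omega) (by omega) (by omega)
  have hcb : (0 : ℝ) < l.choose (b - 1) := by exact_mod_cast Nat.choose_pos (by omega)
  obtain ⟨a', rfl⟩ : ∃ a', a = a' + 1 := ⟨a - 1, by omega⟩
  obtain ⟨b', rfl⟩ : ∃ b', b = b' + 1 := ⟨b - 1, by omega⟩
  simp only [Nat.add_sub_cancel] at h1 h2 hca hcb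
  have e1 : (l.choose (a' + 1) : ℝ) * (a' + 1) = l.choose a' * ((l : ℝ) - a') := by
    have := Nat.choose_succ_right_eq l a'
    rw [← Nat.cast_sub (by omega)]; exact_mod_cast this
  have e2 : (l.choose (b' + 1) : ℝ) * (b' + 1) = l.choose b' * ((l : ℝ) - b') := by
    have := Nat.choose_succ_right_eq l b'
    rw [← Nat.cast_sub (by omega)]; exact_mod_cast this
  have hab' : (a' : ℝ) + 1 + (b' + 1) = l + t := by exact_mod_cast hab
  have ht' : (2 : ℝ) ≤ t := by exact_mod_cast ht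
  have hla : (0 : ℝ) < (l : ℝ) - a' := by
    have : (a' : ℝ) + 1 ≤ l := by exact_mod_cast ha
    linarith
  have hlb : (0 : ℝ) < (l : ℝ) - b' := by
    have : (b' : ℝ) + 1 ≤ l := by exact_mod_cast (by omega : b' + 1 ≤ l)
    linarith
  set wa := ∑ Y ∈ Xs l R G (a' + 1), φ (a' + 1 + #Y)
  set wb := ∑ Y ∈ Xs l R G (b' + 1), φ (b' + 1 + #Y)
  set x := (l.choose a' : ℝ)
  set y := (l.choose b' : ℝ)
  have ha0 : (0 : ℝ) ≤ a' := Nat.cast_nonneg _
  have hb0 : (0 : ℝ) ≤ b' := Nat.cast_nonneg _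
  have g1 : (b' + 1 : ℝ) * (x * wa) ≤ ((l : ℝ) - b') * (y * wb) := by
    have := mul_le_mul_of_nonneg_left h1 (show (0 : ℝ) ≤ b' + 1 by positivity)
    have e3 : (b' + 1 : ℝ) * ((l.choose (b' + 1) : ℝ) * wb) = ((l : ℝ) - b') * (y * wb) := by
      linear_combination wb * e2
    linarith
  have g2 : (a' + 1 : ℝ) * (y * wb) ≤ ((l : ℝ) - a') * (x * wa) := by
    have := mul_le_mul_of_nonneg_left h2 (show (0 : ℝ) ≤ a' + 1 by positivity)
    have e3 : (a' + 1 : ℝ) * ((l.choose (a' + 1) : ℝ) * wa) = ((l : ℝ) - a') * (x * wa) := by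
      linear_combination wa * e1
    linarith
  have p1 : 0 < x * wa := mul_pos hca hωa
  have p2 : 0 ≤ y * wb := mul_nonneg hcb.le hωb
  have g3 : ((l : ℝ) - b') * (y * wb) ≤ a' * (y * wb) :=
    mul_le_mul_of_nonneg_right (by linarith) p2
  have g4 : ((l : ℝ) - a') * (x * wa) ≤ b' * (x * wa) :=
    mul_le_mul_of_nonneg_right (by linarith) p1.le
  linarith

lemma Xs_empty_mid {R t l i : ℕ} {G : Finset (Finset ℕ)} {h : ℕ → ℝ} (hh : ∀ c, 0 ≤ h c)
    (hF : Fam R t G) (hS : Shifted G) (hsym : Symm l G)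
    (hopt : ∀ G', Fam R t G' → V (fun c => h c + h (c + 1)) G' ≤ V (fun c => h c + h (c + 1)) G)
    (hopt' : ∀ G', Fam (R + 1) t G' → V h G' ≤ V (fun c => h c + h (c + 1)) G)
    (hpos : ∀ A ∈ G, 0 < h #A + h (#A + 1)) (hl : l < R) (ht : 1 ≤ t) (hli : l = t + 2 * i)
    (hPI : ∀ c c' : ℕ, c + c' + 1 = R + t → t + i ≤ c → t + i ≤ c' → 0 < h c + h (c + 1) →
      ((i : ℝ) + 1) * ((h c + h (c + 1)) + (h c' + h (c' + 1)))
        < (t + 2 * i + 1) * (h (c + 1) + h (c' + 1))) :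
    Xs l R G (t + i) = ∅ := by
  classical
  by_contra hn
  set a := t + i with hadef
  have ha1 : 1 ≤ a := by omega
  have ha : a ≤ l := by omega
  set T := Ico (l + 1) R with hT
  have hrange : range a ⊆ range l := range_subset_range.2 ha
  -- the new family one level up
  have hRa : ∀ A ∈ Xa l R G a ∪ Xp l R G a, A ⊆ range R := by
    intro A hA
    rcases mem_union.1 hA with h1 | h1
    · exact hF.1 A (Xa_sub h1)
    · exact Xp_sub hl h1
  have hF0 : Fam R t (G \ Xa l R G a) :=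
    ⟨fun A hA => hF.1 A (mem_sdiff.1 hA).1,
      fun A hA B hB => hF.2 A (mem_sdiff.1 hA).1 B (mem_sdiff.1 hB).1⟩
  have hmix : ∀ A ∈ Xa l R G a ∪ Xp l R G a, ∀ B ∈ G \ Xa l R G a, t ≤ #(A ∩ B) := by
    intro A hA B hB
    rcases mem_union.1 hA with h1 | h1
    · exact hF.2 A (Xa_sub h1) B (mem_sdiff.1 hB).1
    · exact lemA' hF hS hsym ha1 ha (by omega) h1 hB
  have hXX : ∀ A ∈ Xa l R G a ∪ Xp l R G a, ∀ B ∈ Xa l R G a ∪ Xp l R G a,
      t ≤ #(A ∩ B) + 1 := by
    have hap : ∀ A ∈ Xa l R G a, ∀ B ∈ Xp l R G a, t ≤ #(A ∩ B) + 1 := by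
      intro A hA B hB
      obtain ⟨P, p1, p2, Y, p3, rfl⟩ := mem_Xa.1 hA
      obtain ⟨Q, q1, q2, Z, q3, rfl⟩ := mem_Xp.1 hB
      rw [card_inter_split p1 q1 (out_of_sub (mem_Xs.1 p3).1)
        (out_insert (out_of_sub (mem_Xs.1 q3).1))]
      have := card_inter_ge p1 q1
      omega
    intro A hA B hB
    rcases mem_union.1 hA with h1 | h1 <;> rcases mem_union.1 hB with h2 | h2
    · exact (hF.2 A (Xa_sub h1) B (Xa_sub h2)).trans (Nat.le_succ _)
    · exact hap A h1 B h2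
    · rw [inter_comm]; exact hap B h2 A h1
    · obtain ⟨P, p1, p2, Y, p3, rfl⟩ := mem_Xp.1 h1
      obtain ⟨Q, q1, q2, Z, q3, rfl⟩ := mem_Xp.1 h2
      rw [card_inter_split p1 q1 (out_insert (out_of_sub (mem_Xs.1 p3).1))
        (out_insert (out_of_sub (mem_Xs.1 q3).1)), ← insert_inter_distrib,
        card_insert_of_notMem (fun h' => notMem_of_sub (mem_Xs.1 p3).1 (mem_inter.1 h').1)]
      have := card_inter_ge p1 q1
      omega
  have hF' : Fam (R + 1) t
      (lift R (G \ Xa l R G a) ∪ (Xa l R G a ∪ Xp l R G a).image (insert R)) := by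
    have hmix' : ∀ A ∈ (Xa l R G a ∪ Xp l R G a).image (insert R),
        ∀ B ∈ lift R (G \ Xa l R G a), t ≤ #(A ∩ B) := by
      intro A hA B hB
      obtain ⟨A', hA', rfl⟩ := mem_image.1 hA
      obtain ⟨B', hB', h2, -⟩ := mem_lift hB
      exact (hmix A' hA' B' hB').trans
        (card_le_card (inter_subset_inter (subset_insert _ _) h2))
    constructor
    · intro A hA
      rcases mem_union.1 hA with h1 | h1
      · exact (Fam_lift hF0).1 A h1
      · obtain ⟨A', hA', rfl⟩ := mem_image.1 h1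
        exact insert_sub (hRa A' hA')
    · intro A hA B hB
      rcases mem_union.1 hA with h1 | h1 <;> rcases mem_union.1 hB with h2 | h2
      · exact (Fam_lift hF0).2 A h1 B h2
      · rw [inter_comm]; exact hmix' B h2 A h1
      · exact hmix' A h1 B h2
      · obtain ⟨A', hA', rfl⟩ := mem_image.1 h1
        obtain ⟨B', hB', rfl⟩ := mem_image.1 h2
        rw [← insert_inter_distrib,
          card_insert_of_notMem (fun h' => not_mem_of_sub (hRa A' hA') (mem_inter.1 h').1)]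
        exact hXX A' hA' B' hB'
  have hV := hopt' _ hF'
  have hdisj1 : Disjoint (lift R (G \ Xa l R G a))
      ((Xa l R G a ∪ Xp l R G a).image (insert R)) := by
    rw [disjoint_left]
    intro A h1 h2
    obtain ⟨A', hA', rfl⟩ := mem_image.1 h2
    obtain ⟨B', hB', -, h3 | h3⟩ := mem_lift h1
    · exact not_mem_of_sub (hF0.1 B' hB') (h3 ▸ mem_insert_self _ _)
    · have e : A' = B' := by
        rw [← erase_insert (not_mem_of_sub (hRa A' hA')), h3,
          erase_insert (not_mem_of_sub (hF0.1 B' hB'))]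
      subst e
      rcases mem_union.1 hA' with h4 | h4
      · exact (mem_sdiff.1 hB').2 h4
      · exact Xp_not hsym h4 (mem_sdiff.1 hB').1
  have hdisj2 : Disjoint (Xa l R G a) (Xp l R G a) := by
    rw [disjoint_left]
    exact fun A h1 h2 => Xp_not hsym h2 (Xa_sub h1)
  rw [V, sum_union hdisj1, sum_image_insert (fun A hA => not_mem_of_sub (hRa A hA)),
    sum_union hdisj2] at hV
  have hV1 := V_lift (fun A hA => not_mem_of_sub (hF0.1 A hA)) h
  rw [V] at hV1
  rw [hV1, V, V, sum_sdiff_eq_sub Xa_sub, sum_Xa l R G a (fun c => h c + h (c + 1)),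
    sum_Xa l R G a (fun c => h (c + 1)), sum_Xp l R G ha1 (fun c => h (c + 1))] at hV
  -- complements
  have hcomp : ∀ Y ∈ Xs l R G a, T \ Y ∈ Xs l R G a ∨
      h (a + #(T \ Y)) + h (a + #(T \ Y) + 1) = 0 := by
    intro Y hY
    obtain ⟨y1, y2, y3⟩ := mem_Xs.1 hY
    have hYo := out_of_sub y1
    have hra : range (a - 1) ⊆ range l := range_subset_range.2 (by omega)
    have hmemp : range (a - 1) ∪ insert l Y ∈ Xp l R G a :=
      mem_Xp.2 ⟨_, hra, card_range _, Y, hY, rfl⟩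
    have hcardp : #(range (a - 1) ∪ insert l Y) = a + #Y := by
      rw [card_union_split hra (out_insert hYo), card_range,
        card_insert_of_notMem (notMem_of_sub y1)]
      omega
    have hex : ∃ B ∈ G, #((range (a - 1) ∪ insert l Y) ∩ B) < t := by
      by_contra hne
      push Not at hne
      refine Xp_not hsym hmemp (add_one hF hopt (Xp_sub hl hmemp) (by omega) hne ?_)
      simp only [hcardp]
      exact weight_pos (φ := fun c => h c + h (c + 1)) hpos ha hY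
    obtain ⟨B, hB, hlt⟩ := hex
    obtain ⟨c, hc, Q, q1, q2, Z, z1, z2, z3⟩ :=
      lemA hF hS hsym ha1 ha hra (card_range _) y1 y2 hB hlt
    have hca : c = a := by omega
    subst hca
    have hZT : Z ⊆ T \ Y := by
      intro x hx
      refine mem_sdiff.2 ⟨(mem_Xs.1 z1).1 hx, fun hxY => ?_⟩
      rw [card_eq_zero] at z3
      exact notMem_empty x (z3 ▸ mem_inter.2 ⟨hxY, hx⟩)
    have hTY : T \ Y ⊆ T := sdiff_subset
    rcases (add_nonneg (hh (a + #(T \ Y))) (hh (a + #(T \ Y) + 1))).eq_or_lt with h0 | h0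
    · exact Or.inr h0.symm
    refine Or.inl (mem_Xs.2 ⟨hTY, fun P p1 p2 => ?_, fun h6 => ?_⟩)
    · have hPZ := (mem_Xs.1 z1).2.1 P p1 p2
      have hsub : P ∪ Z ⊆ P ∪ T \ Y := union_subset_union Subset.rfl hZT
      have hcard : #(P ∪ T \ Y) = a + #(T \ Y) := by
        rw [card_union_split p1 (out_of_sub hTY), p2]
      refine add_one hF hopt ?_ (by omega) (fun A hA => ?_) (by simp only [hcard]; exact h0)
      · exact union_subset (p1.trans (range_subset_range.2 hl.le))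
          fun x hx => mem_range.2 (mem_Ico.1 (hTY hx)).2
      · exact (hF.2 _ hPZ A hA).trans (card_le_card (inter_subset_inter hsub Subset.rfl))
    · have h7 := lemC0 hF ha (by omega) hYo (out_insert (out_of_sub hTY)) y2 h6
      rw [inter_insert_of_notMem (notMem_of_sub y1), inter_sdiff_self, card_empty] at h7
      omega
  set g : ℕ → ℝ := fun y =>
    (t + 2 * i + 1) * h (a + y + 1) - ((i : ℝ) + 1) * (h (a + y) + h (a + y + 1)) with hg
  set W := (powerset T).filter (fun Y => Y ∈ Xs l R G a ∨ T \ Y ∈ Xs l R G a) with hW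
  have hXW : Xs l R G a ⊆ W := fun Y hY =>
    mem_filter.2 ⟨mem_powerset.2 (mem_Xs.1 hY).1, Or.inl hY⟩
  have hcc : ∀ Y ∈ W, T \ (T \ Y) = Y := fun Y hY =>
    Finset.sdiff_sdiff_eq_self (mem_powerset.1 (mem_filter.1 hY).1)
  have hWc : ∀ Y ∈ W, T \ Y ∈ W := by
    intro Y hY
    refine mem_filter.2 ⟨mem_powerset.2 sdiff_subset, ?_⟩
    rw [hcc Y hY]
    exact (mem_filter.1 hY).2.symm
  have s1 : ∑ Y ∈ Xs l R G a, g #Y = ∑ Y ∈ W, g #Y := by
    refine sum_subset hXW fun Y hY hY' => ?_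
    rcases (mem_filter.1 hY).2 with h1 | h1
    · exact absurd h1 hY'
    · rcases hcomp _ h1 with h2 | h2
      · rw [hcc Y hY] at h2; exact absurd h2 hY'
      · rw [hcc Y hY] at h2
        have h3 : h (a + #Y + 1) = 0 := by linarith [hh (a + #Y), hh (a + #Y + 1)]
        simp only [hg]
        rw [h2, h3]; ring
  have s2 : ∑ Y ∈ W, g #Y = ∑ Y ∈ W, g #(T \ Y) :=
    sum_nbij' (fun Y => T \ Y) (fun Y => T \ Y) hWc hWc hcc hcc
      (fun Y hY => by rw [hcc Y hY])
  have s3 : 0 < ∑ Y ∈ W, (g #Y + g #(T \ Y)) := by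
    have hone : ∀ Y ∈ Xs l R G a, 0 < g #Y + g #(T \ Y) := by
      intro Y hY
      have hc := card_sdiff_add_card_eq_card (mem_Xs.1 hY).1
      have hTc : #T = R - (l + 1) := Nat.card_Ico _ _
      have := hPI (a + #Y) (a + #(T \ Y)) (by rw [← hT] at hc; omega) (by omega) (by omega)
        (weight_pos (φ := fun c => h c + h (c + 1)) hpos ha hY)
      simp only [hg]
      linarith
    refine sum_pos (fun Y hY => ?_) ((nonempty_iff_ne_empty.2 hn).mono hXW)
    rcases (mem_filter.1 hY).2 with h1 | h1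
    · exact hone Y h1
    · have := hone _ h1
      rw [hcc Y hY] at this
      linarith
  rw [sum_add_distrib, ← s2, ← s1] at s3
  have s4 : 0 < ∑ Y ∈ Xs l R G a, g #Y := by linarith
  simp only [hg] at s4
  rw [sum_sub_distrib, ← mul_sum, ← mul_sum] at s4
  set ω := ∑ Y ∈ Xs l R G a, (h (a + #Y) + h (a + #Y + 1))
  set ω' := ∑ Y ∈ Xs l R G a, h (a + #Y + 1)
  obtain ⟨a', ha'⟩ : ∃ a', a = a' + 1 := ⟨a - 1, by omega⟩
  have e0 : a - 1 = a' := by omega
  rw [e0] at hV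
  have e1 : (l.choose a : ℝ) * a = l.choose a' * ((i : ℝ) + 1) := by
    have := Nat.choose_succ_right_eq l a'
    rw [← ha', (by omega : l - a' = i + 1)] at this
    exact_mod_cast this
  have e2 : (a : ℝ) = t + i := by rw [hadef]; push_cast; ring
  have hca : (0 : ℝ) < l.choose a := by exact_mod_cast Nat.choose_pos ha
  have hi0 : (0 : ℝ) ≤ i := Nat.cast_nonneg _
  have f1 : (l.choose a : ℝ) * ω' + l.choose a' * ω' ≤ l.choose a * ω := by linarith
  have f2 := mul_le_mul_of_nonneg_left f1 (show (0 : ℝ) ≤ i + 1 by positivity)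
  have f3 := mul_pos hca s4
  have f4 : ((i : ℝ) + 1) * (l.choose a' * ω') = l.choose a * (t + i) * ω' := by
    rw [← e2]; linear_combination (-ω') * e1
  linarith

lemma symm_succ {R t l : ℕ} {G : Finset (Finset ℕ)} (hF : Fam R t G) (hS : Shifted G)
    (hsym : Symm l G) (hX : ∀ a, 1 ≤ a → a ≤ l → Xs l R G a = ∅) : Symm (l + 1) G := by
  intro A hA B h1 h2
  have hmem : ∀ x, l < x → (x ∈ B ↔ x ∈ A) := by
    intro x hx
    have := congrArg (fun X => x ∈ X) h1
    simp only [mem_sdiff, mem_range, eq_iff_iff] at this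
    constructor
    · intro h; exact (this.1 ⟨h, by omega⟩).1
    · intro h; exact (this.2 ⟨h, by omega⟩).1
  have hc1 : ∀ C : Finset ℕ, l ∈ C → #(C ∩ range (l + 1)) = #(C ∩ range l) + 1 := by
    intro C hC
    rw [range_add_one, inter_insert_of_mem hC,
      card_insert_of_notMem (fun h => not_mem_of_sub inter_subset_right h)]
  have hc2 : ∀ C : Finset ℕ, l ∉ C → #(C ∩ range (l + 1)) = #(C ∩ range l) := by
    intro C hC
    rw [range_add_one, inter_insert_of_notMem hC]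
  have hsame : ∀ C : Finset ℕ, (∀ x, l < x → (x ∈ B ↔ x ∈ C)) → (l ∈ B ↔ l ∈ C) →
      B \ range l = C \ range l := by
    intro C h3 h4
    ext x
    simp only [mem_sdiff, mem_range]
    rcases lt_trichotomy x l with h | rfl | h
    · simp [h]
    · rw [h4]
    · rw [h3 x h]
  by_cases hlA : l ∈ A <;> by_cases hlB : l ∈ B
  · refine hsym A hA B (hsame A hmem (by tauto)) ?_
    rw [hc1 A hlA, hc1 B hlB] at h2; omega
  · rw [hc1 A hlA, hc2 B hlB] at h2
    have h3 : #(B ∩ range l) ≤ l := by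
      simpa using card_le_card (inter_subset_right (s₁ := B) (s₂ := range l))
    obtain ⟨i, hi, hiA⟩ : ∃ i ∈ range l, i ∉ A ∩ range l :=
      exists_mem_notMem_of_card_lt_card (by rw [card_range]; omega)
    have hiA' : i ∉ A := fun h => hiA (mem_inter.2 ⟨h, hi⟩)
    have hil := mem_range.1 hi
    have h4 := hS A hA i l hil hlA hiA'
    refine hsym _ h4 B (hsame _ (fun x hx => ?_) ?_) ?_
    · rw [hmem x hx, mem_insert, mem_erase]
      constructor
      · exact fun h => Or.inr ⟨by omega, h⟩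
      · rintro (h | h)
        · omega
        · exact h.2
    · rw [mem_insert, mem_erase]
      constructor
      · exact fun h => absurd h hlB
      · rintro (h | h)
        · omega
        · exact absurd rfl h.1
    · rw [insert_inter_of_mem hi, erase_inter,
        erase_eq_of_notMem (fun h => not_mem_of_sub inter_subset_right h),
        card_insert_of_notMem hiA, h2]
  · rw [hc2 A hlA, hc1 B hlB] at h2
    have h3 : #(A ∩ range l) ≤ l := by
      simpa using card_le_card (inter_subset_right (s₁ := A) (s₂ := range l))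
    have hY : A \ range l ⊆ Ico (l + 1) R := by
      intro x hx
      have h5 := out_sdiff l A x hx
      have h6 : x ≠ l := fun h => hlA (h ▸ (mem_sdiff.1 hx).1)
      have h7 := mem_range.1 (hF.1 A hA (mem_sdiff.1 hx).1)
      exact mem_Ico.2 ⟨by omega, h7⟩
    have h4 : Inn l G #(A ∩ range l) (A \ range l) :=
      hsym.inn inter_subset_right (out_sdiff l A) (split_eq l A ▸ hA)
    have h5 : Inn l G (#(A ∩ range l) - 1) (insert l (A \ range l)) := by
      by_contra h6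
      have := mem_Xs.2 ⟨hY, h4, h6⟩
      rw [hX _ (by omega) h3] at this
      exact notMem_empty _ this
    have h6 := h5 (B ∩ range l) inter_subset_right (by omega)
    have e : insert l (A \ range l) = B \ range l := by
      ext x
      simp only [mem_insert, mem_sdiff, mem_range]
      rcases lt_trichotomy x l with h | rfl | h
      · simp [h, h.ne]
      · simp [hlB]
      · rw [hmem x h]; simp [h.ne']
    rwa [e, ← split_eq l B] at h6
  · refine hsym A hA B (hsame A hmem (by tauto)) ?_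
    rw [hc2 A hlA, hc2 B hlB] at h2; exact h2

lemma card_ge_of_symm {R t : ℕ} {G : Finset (Finset ℕ)} (hF : Fam R t G) (hsym : Symm R G)
    (ht : 1 ≤ t) {A : Finset ℕ} (hA : A ∈ G) : R + t ≤ 2 * #A := by
  have hout : Out R (∅ : Finset ℕ) := fun x hx => absurd hx (notMem_empty x)
  have h1 : Inn R G #A ∅ := hsym.inn (hF.1 A hA) hout (by simpa using hA)
  have h2 : #A ≤ R := by simpa using card_le_card (hF.1 A hA)
  have h3 := lemC0 hF h2 h2 hout hout h1 h1
  simp only [inter_self, card_empty] at h3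
  omega

end Pool.Agent.Lib.MP_8815b4_co
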