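import Pool.Agent.Lib.MP_8815b4_co.Ineq

/-!
The pair inequality used in the symmetrisation step.
-/

namespace Pool.Agent.Lib.MP_8815b4_co

open Finset

variable {l k : ℕ}

lemma K_base (hl : 2 ≤ l) (m b : ℕ) (hb : 3 ≤ b) (hbk : b + 1 < k)
    (hm : 2 * k ≤ 2 * (b + 1) + m + 2) :
    2 * ((k : ℝ) - (b + 1)) * ff (wt l k) (b + 3) m * ff (wt l k) (b + 1) m
      ≤ ((k : ℝ) - (b + 1) - 1) * ff (wt l k) (b + 2) m * ff (wt l k) b m := by
  have n0 := F_nonneg l k m b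
  have n1 := F_nonneg l k m (b + 1)
  have n2 := F_nonneg l k m (b + 2)
  have n3 := F_nonneg l k m (b + 3)
  rcases (show b + 2 = k ∨ b + 2 < k by omega) with h | h
  · rw [F_gt l m (by omega : k < b + 3)]
    have hk' : (k : ℝ) = b + 2 := by rw [← h]; push_cast; ring
    rw [hk']
    ring_nf
    rfl
  have h1 := F_upper hl k m b
  have h2 := F_upper hl k m (b + 2)
  rw [ff_succ] at h1 h2
  have e3 : b + 2 + 1 = b + 3 := rfl
  rw [e3] at h2
  set X0 := ff (wt l k) b m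
  set X1 := ff (wt l k) (b + 1) m
  set X2 := ff (wt l k) (b + 2) m
  set X3 := ff (wt l k) (b + 3) m
  obtain ⟨s, hs⟩ : ∃ s : ℝ, s = (k : ℝ) - (b + 1) := ⟨_, rfl⟩
  have hs2 : 2 ≤ s := by
    have : (b : ℝ) + 3 ≤ k := by exact_mod_cast h
    linarith
  obtain ⟨μ, hμ⟩ : ∃ μ : ℝ, μ = (m : ℝ) - (2 * s - 2) := ⟨_, rfl⟩
  have hμ0 : 0 ≤ μ := by
    have : 2 * (k : ℝ) ≤ 2 * (b + 1) + m + 2 := by exact_mod_cast hm
    linarith
  obtain ⟨κ, hκ⟩ : ∃ κ : ℝ, κ = (b : ℝ) - 3 := ⟨_, rfl⟩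
  have hκ0 : 0 ≤ κ := by
    have : (3 : ℝ) ≤ b := by exact_mod_cast hb
    linarith
  have hb' : (b : ℝ) = κ + 3 := by linarith
  have hk' : (k : ℝ) = s + 4 + κ := by linarith
  have hm' : (m : ℝ) = 2 * s - 2 + μ := by linarith
  push_cast at h2
  rw [← hs]
  rw [hm', hk', hb'] at h1 h2
  have g1 : (2 * s - 1 + μ) * (5 * s + 2 + μ + κ) * X1 ≤ (s + 1) * (4 * s - 1 + μ) * (X0 + X1) := by
    linarith
  have g2 : (2 * s - 1 + μ) * (5 * s - 2 + μ + κ) * X3 ≤ (s - 1) * (4 * s - 5 + μ) * (X2 + X3) := by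
    linarith
  have p1 : (2 * s - 1) * (5 * s + 2) * X1 ≤ (s + 1) * (4 * s - 1) * (X0 + X1) := by
    have a1 : (4 * s - 1 + μ) * ((2 * s - 1) * (5 * s + 2))
        ≤ (4 * s - 1) * ((2 * s - 1 + μ) * (5 * s + 2 + μ + κ)) := by
      have b1 : (4 * s - 1 + μ) * (2 * s - 1) ≤ (4 * s - 1) * (2 * s - 1 + μ) := by nlinarith
      have b2 : (0 : ℝ) ≤ (4 * s - 1) * (2 * s - 1 + μ) := by
        apply mul_nonneg <;> linarith
      calc (4 * s - 1 + μ) * ((2 * s - 1) * (5 * s + 2))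
          = ((4 * s - 1 + μ) * (2 * s - 1)) * (5 * s + 2) := by ring
        _ ≤ ((4 * s - 1) * (2 * s - 1 + μ)) * (5 * s + 2 + μ + κ) :=
          mul_le_mul b1 (by linarith) (by linarith) b2
        _ = _ := by ring
    have a2 := mul_le_mul_of_nonneg_right a1 n1
    have a3 := mul_le_mul_of_nonneg_left g1 (show (0 : ℝ) ≤ 4 * s - 1 by linarith)
    have a4 : (4 * s - 1 + μ) * ((2 * s - 1) * (5 * s + 2) * X1)
        ≤ (4 * s - 1 + μ) * ((s + 1) * (4 * s - 1) * (X0 + X1)) := by linarith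
    exact le_of_mul_le_mul_left a4 (by linarith)
  have p2 : (2 * s - 1) * (5 * s - 2) * X3 ≤ (s - 1) * (4 * s - 5) * (X2 + X3) := by
    have a1 : (4 * s - 5 + μ) * ((2 * s - 1) * (5 * s - 2))
        ≤ (4 * s - 5) * ((2 * s - 1 + μ) * (5 * s - 2 + μ + κ)) := by
      have b1 : (4 * s - 5 + μ) * (2 * s - 1) ≤ (4 * s - 5) * (2 * s - 1 + μ) := by nlinarith
      have b2 : (0 : ℝ) ≤ (4 * s - 5) * (2 * s - 1 + μ) := by
        apply mul_nonneg <;> linarith
      calc (4 * s - 5 + μ) * ((2 * s - 1) * (5 * s - 2))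
          = ((4 * s - 5 + μ) * (2 * s - 1)) * (5 * s - 2) := by ring
        _ ≤ ((4 * s - 5) * (2 * s - 1 + μ)) * (5 * s - 2 + μ + κ) :=
          mul_le_mul b1 (by linarith) (by linarith) b2
        _ = _ := by ring
    have a2 := mul_le_mul_of_nonneg_right a1 n3
    have a3 := mul_le_mul_of_nonneg_left g2 (show (0 : ℝ) ≤ 4 * s - 5 by linarith)
    have a4 : (4 * s - 5 + μ) * ((2 * s - 1) * (5 * s - 2) * X3)
        ≤ (4 * s - 5 + μ) * ((s - 1) * (4 * s - 5) * (X2 + X3)) := by linarith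
    exact le_of_mul_le_mul_left a4 (by linarith)
  have q1 : (6 * s ^ 2 - 4 * s - 1) * X1 ≤ (s + 1) * (4 * s - 1) * X0 := by linarith
  have q2 : (6 * s ^ 2 - 3) * X3 ≤ (s - 1) * (4 * s - 5) * X2 := by linarith
  have c1 : 0 < 6 * s ^ 2 - 4 * s - 1 := by nlinarith
  have c2 : 0 < 6 * s ^ 2 - 3 := by nlinarith
  have q3 := mul_le_mul q1 q2 (by positivity) (le_trans (by positivity) q1)
  have c3 : 2 * s * ((s + 1) * (4 * s - 1) * (4 * s - 5))
      ≤ (6 * s ^ 2 - 4 * s - 1) * (6 * s ^ 2 - 3) := by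
    have : 0 ≤ s ^ 3 * (s - 2) := mul_nonneg (by positivity) (by linarith)
    nlinarith
  have c4 : 0 ≤ (s - 1) * X2 * X0 := by
    have : 0 ≤ s - 1 := by linarith
    positivity
  have q4 : ((6 * s ^ 2 - 4 * s - 1) * (6 * s ^ 2 - 3)) * (2 * s * X3 * X1)
      ≤ ((6 * s ^ 2 - 4 * s - 1) * (6 * s ^ 2 - 3)) * ((s - 1) * X2 * X0) := by
    have d1 := mul_le_mul_of_nonneg_left q3 (show (0 : ℝ) ≤ 2 * s by linarith)
    have d2 := mul_le_mul_of_nonneg_right c3 c4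
    linarith
  exact le_of_mul_le_mul_left q4 (by positivity)

lemma K_all (hl : 2 ≤ l) (m α : ℕ) (hαk : α < k) (hm : 2 * k ≤ 2 * α + m + 2)
    (hpos : 0 < ff (wt l k) α m) (z : ℕ) : ∀ b : ℕ, 3 ≤ b → b + z + 1 = α →
    2 * ((k : ℝ) - α) * ff (wt l k) (α + 2 + z) m * ff (wt l k) α m
      ≤ ((k : ℝ) - α - 1) * ff (wt l k) (α + 1) m * ff (wt l k) b m := by
  induction z with
  | zero =>
    intro b hb h
    have h' : α = b + 1 := by omega
    subst h'
    have := K_base hl m b hb hαk hm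
    push_cast
    exact this
  | succ z ih =>
    intro b hb h
    have hk2 : 2 ≤ k := by omega
    have ih' := ih (b + 1) (by omega) (by omega)
    have hp := F_pair hl hk2 m (α + 2 + z) b (by omega)
    have e : α + 2 + (z + 1) = α + 2 + z + 1 := by ring
    rw [e]
    have hs : (1 : ℝ) ≤ (k : ℝ) - α := by
      have : (α : ℝ) + 1 ≤ k := by exact_mod_cast hαk
      linarith
    have n1 := F_nonneg l k m (α + 1)
    have n2 := F_nonneg l k m b
    have n3 := F_nonneg l k m (α + 2 + z)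
    have n4 := F_nonneg l k m (α + 2 + z + 1)
    rcases (F_nonneg l k m (b + 1)).eq_or_lt with h0 | h0
    · rw [← h0, mul_zero] at ih'
      have h3 : ff (wt l k) (α + 2 + z) m = 0 := by
        by_contra hne
        have : 0 < ff (wt l k) (α + 2 + z) m := lt_of_le_of_ne n3 (Ne.symm hne)
        have : 0 < 2 * ((k : ℝ) - α) * ff (wt l k) (α + 2 + z) m * ff (wt l k) α m := by
          positivity
        linarith
      have h4 : ff (wt l k) (α + 2 + z + 1) m = 0 := by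
        by_contra hne
        have := F_pos_pred hl hk2 m (α + 2 + z) (by omega) (lt_of_le_of_ne n4 (Ne.symm hne))
        linarith
      rw [h4]
      have : 0 ≤ (k : ℝ) - α - 1 := by linarith
      simp only [mul_zero, zero_mul]
      positivity
    · have h5 := mul_le_mul_of_nonneg_left hp
        (show 0 ≤ 2 * ((k : ℝ) - α) * ff (wt l k) α m by positivity)
      have h6 := mul_le_mul_of_nonneg_right ih' n2
      have h7 : (2 * ((k : ℝ) - α) * ff (wt l k) (α + 2 + z + 1) m * ff (wt l k) α m)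
          * ff (wt l k) (b + 1) m
          ≤ (((k : ℝ) - α - 1) * ff (wt l k) (α + 1) m * ff (wt l k) b m)
          * ff (wt l k) (b + 1) m := by linarith
      exact le_of_mul_le_mul_right h7 h0

lemma alg_FD {s z h0 h1 : ℝ} (hs : 2 ≤ s) (hz : 1 ≤ z) (p0 : 0 < h0) (p1 : 0 < h1)
    (hR : (3 * s + z - 2) * h1 ≤ 2 * s * h0) :
    (h0 + h1) * (s * h0 + (s + z) * h1) ≤ 4 * s * h0 ^ 2 := by
  have pq : 0 < 3 * s + z - 2 := by linarith
  have ps : 0 < s := by linarith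
  have a1 : (3 * s + z - 2) * (h0 + h1) ≤ (5 * s + z - 2) * h0 := by linarith
  have a2 : (3 * s + z - 2) * (s * h0 + (s + z) * h1) ≤ s * (5 * s + 3 * z - 2) * h0 := by
    have := mul_le_mul_of_nonneg_left hR (show 0 ≤ s + z by linarith)
    linarith
  have pz : 0 < z := by linarith
  have a3 := mul_le_mul a1 a2 (by positivity) (by
    have : 0 ≤ 5 * s + z - 2 := by linarith
    positivity)
  have a4 : (5 * s + z - 2) * (5 * s + 3 * z - 2) ≤ 4 * (3 * s + z - 2) ^ 2 := by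
    have c1 := mul_nonneg (show 0 ≤ s - 2 by linarith) (show 0 ≤ z by linarith)
    have c2 := mul_nonneg (show 0 ≤ s - 2 by linarith) (show 0 ≤ s by linarith)
    have c3 := sq_nonneg z
    nlinarith
  have a5 := mul_le_mul_of_nonneg_right a4 (show 0 ≤ s * h0 ^ 2 by positivity)
  have a6 : (3 * s + z - 2) ^ 2 * ((h0 + h1) * (s * h0 + (s + z) * h1))
      ≤ (3 * s + z - 2) ^ 2 * (4 * s * h0 ^ 2) := by linarith
  exact le_of_mul_le_mul_left a6 (by positivity)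

lemma alg_LX {s z m h0 h1 F0 F1 X Y D : ℝ} (hs : 2 ≤ s) (hz : 1 ≤ z) (hm : 2 * s - 2 ≤ m)
    (p0 : 0 < h0) (p1 : 0 < h1) (pX : 0 ≤ X) (pY : 0 ≤ Y) (pF0 : 0 < F0)
    (hFD : F0 * D ≤ 4 * s * h0 ^ 2) (hF1 : F1 * h0 ≤ h1 * F0)
    (hK : 2 * s * Y * F0 ≤ (s - 1) * F1 * X) :
    z * Y * (F0 * D) ≤ z * h0 * h1 * X * m := by
  have b1 : 2 * s * Y * h0 ≤ (s - 1) * h1 * X := by
    have c1 := mul_le_mul_of_nonneg_right hK p0.le
    have c2 := mul_le_mul_of_nonneg_left hF1 (show 0 ≤ (s - 1) * X by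
      have : 0 ≤ s - 1 := by linarith
      positivity)
    have c3 : (2 * s * Y * h0) * F0 ≤ ((s - 1) * h1 * X) * F0 := by linarith
    exact le_of_mul_le_mul_right c3 pF0
  have b2 : Y * (F0 * D) ≤ Y * (4 * s * h0 ^ 2) := mul_le_mul_of_nonneg_left hFD pY
  have b3 := mul_le_mul_of_nonneg_left b1 (show 0 ≤ 2 * h0 by positivity)
  have b4 : 2 * (s - 1) * (h0 * h1 * X) ≤ m * (h0 * h1 * X) :=
    mul_le_mul_of_nonneg_right (by linarith) (by positivity)
  have b5 : Y * (F0 * D) ≤ m * (h0 * h1 * X) := by linarith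
  have b6 := mul_le_mul_of_nonneg_left b5 (show 0 ≤ z by linarith)
  linarith

lemma alg_fin {g0 g1 L u F0 F1 X Y x1 y1 : ℝ} (pF : 0 ≤ F0 + F1) (hB : 0 ≤ g0 - g1)
    (hx1 : (g0 + L) * X ≤ x1) (hy1 : (g1 - u) * Y ≤ y1) (hYX : Y * F0 ≤ F1 * X)
    (hLX : u * Y ≤ L * X) (f4 : F1 = g0 * F0 + g1 * F1) :
    F1 * (X + Y) ≤ (x1 + y1) * (F0 + F1) := by
  have f1 := mul_le_mul_of_nonneg_right (add_le_add hx1 hy1) pF
  have f2 := mul_le_mul_of_nonneg_right hYX hB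
  have f3 := mul_le_mul_of_nonneg_right hLX pF
  have f5 : F1 * (X + Y) = (g0 * F0 + g1 * F1) * (X + Y) := by rw [← f4]
  rw [f5]
  linarith

/-- The purely algebraic core of the pair inequality. -/
lemma pair_alg {s z m h0 h1 h2 x0 x1 Y y1 : ℝ} (hs : 1 ≤ s) (hs' : s = 1 ∨ 2 ≤ s) (hz : 1 ≤ z)
    (hm : 2 * s - 2 ≤ m) (hm0 : 0 < m)
    (p0 : 0 < h0) (p1 : 0 < h1) (p2 : 0 ≤ h2) (px0 : 0 ≤ x0) (px1 : 0 ≤ x1) (pY : 0 ≤ Y)
    (hU : (s + z) * x0 * h1 ≤ s * x1 * h0) (hL : h0 * h2 ≤ h1 * h1)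
    (hE : m * h2 * Y ≤ m * y1 * (h1 + h2) + z * (h1 + h2) * Y)
    (hR : (3 * s + z - 2) * h1 ≤ 2 * s * h0)
    (hK : 2 * s * Y * (h0 + h1) ≤ (s - 1) * (h1 + h2) * (x0 + x1)) :
    (h1 + h2) * ((x0 + x1) + Y) ≤ (x1 + y1) * ((h0 + h1) + (h1 + h2)) := by
  have pF0 : 0 < h0 + h1 := by linarith
  have pF1 : 0 < h1 + h2 := by linarith
  have ps : 0 < s := by linarith
  have pz : 0 < z := by linarith
  have pD : 0 < s * h0 + (s + z) * h1 := by positivity
  have pX : 0 ≤ x0 + x1 := by positivity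
  refine alg_fin (g0 := h1 / (h0 + h1)) (g1 := h2 / (h1 + h2)) (u := z / m)
    (L := z * h0 * h1 / ((h0 + h1) * (s * h0 + (s + z) * h1))) (by positivity) ?_ ?_ ?_ ?_ ?_ ?_
  · rw [sub_nonneg, div_le_div_iff₀ pF1 pF0]
    linarith
  · have e2 : h1 / (h0 + h1) + z * h0 * h1 / ((h0 + h1) * (s * h0 + (s + z) * h1))
        = (s + z) * h1 / (s * h0 + (s + z) * h1) := by
      field_simp; ring
    rw [e2, div_mul_eq_mul_div, div_le_iff₀ pD]
    linarith
  · have e2 : (h2 / (h1 + h2) - z / m) * Y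
        = (m * h2 * Y - z * (h1 + h2) * Y) / (m * (h1 + h2)) := by
      field_simp
    rw [e2, div_le_iff₀ (by positivity)]
    linarith
  · have h : 0 ≤ (h1 + h2) * (x0 + x1) := by positivity
    have h' := mul_le_mul_of_nonneg_right (show s - 1 ≤ 2 * s by linarith) h
    have : 2 * s * (Y * (h0 + h1)) ≤ 2 * s * ((h1 + h2) * (x0 + x1)) := by linarith
    exact le_of_mul_le_mul_left this (by linarith)
  · rcases hs' with h | h
    · have hY0 : Y = 0 := by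
        rw [h] at hK
        have h3 : Y * (h0 + h1) ≤ 0 := by linarith
        by_contra hne
        have := mul_pos (lt_of_le_of_ne pY (Ne.symm hne)) pF0
        linarith
      rw [hY0, mul_zero]
      positivity
    · rw [div_mul_eq_mul_div, div_mul_eq_mul_div, div_le_div_iff₀ hm0 (by positivity)]
      exact alg_LX h hz hm p0 p1 pX pY pF0 (alg_FD h hz p0 p1 hR) (by linarith) hK
  · field_simp

lemma pair_ineq (hl : 2 ≤ l) (M α z b : ℕ) (hαk : α < k) (hm : 2 * k ≤ 2 * α + (M + 1) + 2)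
    (hb : 3 ≤ b) (hbz : b + z + 1 = α) (hpos : 0 < ff (wt l k) (α + 1) (M + 1)) :
    ff (wt l k) (α + 1) (M + 1) * (ff (wt l k) b (M + 1) + ff (wt l k) (α + 2 + z) (M + 1))
      ≤ (ff (wt l k) (b + 1) M + ff (wt l k) (α + 2 + z + 1) M)
        * (ff (wt l k) α (M + 1) + ff (wt l k) (α + 1) (M + 1)) := by
  have hk2 : 2 ≤ k := by omega
  have p1 : 0 < ff (wt l k) (α + 1) M := by
    rcases (F_nonneg l k M (α + 1 + 1)).eq_or_lt with h | h
    · rw [ff_succ, ← h, add_zero] at hpos; exact hpos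
    · exact F_pos_pred hl hk2 M (α + 1) (by omega) h
  have p0 : 0 < ff (wt l k) α M := F_pos_pred hl hk2 M α (by omega) p1
  have pF : 0 < ff (wt l k) α (M + 1) := by rw [ff_succ]; linarith
  have hK := K_all hl (M + 1) α hαk hm pF z b hb hbz
  have hU := F_ULC l (by omega : 1 ≤ k) M b α (by omega)
  have hL := F_ULC l (by omega : 1 ≤ k) M α (α + 1) (by omega)
  have hE := F_efron l k M (a := α + 1) (b := α + 2 + z) (by omega)
  have hD := F_upper hl k M α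
  simp only at hU hL
  have hs : (1 : ℝ) ≤ (k : ℝ) - α := by
    have : (α : ℝ) + 1 ≤ k := by exact_mod_cast hαk
    linarith
  have hs' : (k : ℝ) - α = 1 ∨ 2 ≤ (k : ℝ) - α := by
    rcases (show α + 1 = k ∨ α + 2 ≤ k by omega) with h | h
    · left; rw [← h]; push_cast; ring
    · right
      have : (α : ℝ) + 2 ≤ k := by exact_mod_cast h
      linarith
  have hb' : (b : ℝ) = α - (z + 1) := by rw [← hbz]; push_cast; ring
  have hb3 : (3 : ℝ) ≤ b := by exact_mod_cast hb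
  have hm' : 2 * (k : ℝ) ≤ 2 * α + (M + 1) + 2 := by exact_mod_cast hm
  have hz : (0 : ℝ) ≤ z := Nat.cast_nonneg z
  have hM : (0 : ℝ) ≤ M := Nat.cast_nonneg M
  have n2 := F_nonneg l k M (α + 1 + 1)
  rw [ff_succ _ α M] at hD hK ⊢
  rw [ff_succ _ (α + 1) M] at hE hK ⊢
  rw [ff_succ _ b M] at hK ⊢
  set h0 := ff (wt l k) α M
  set h1 := ff (wt l k) (α + 1) M
  set h2 := ff (wt l k) (α + 1 + 1) M
  set s : ℝ := (k : ℝ) - α with hsdef
  refine pair_alg (s := s) (z := z + 1) (m := M + 1) hs hs' (by linarith) (by linarith)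
    (by linarith) p0 p1 n2 (F_nonneg _ _ _ _) (F_nonneg _ _ _ _) (F_nonneg _ _ _ _)
    ?_ ?_ ?_ ?_ ?_
  · have e : (k : ℝ) - b = s + (z + 1) := by rw [hb', hsdef]; ring
    rw [e] at hU; exact hU
  · push_cast at hL
    have e : (k : ℝ) - (α + 1) = s - 1 := by rw [hsdef]; ring
    rw [e] at hL
    have : s * (h0 * h2) ≤ s * (h1 * h1) := by nlinarith [mul_pos p1 p1]
    exact le_of_mul_le_mul_left this (by linarith)
  · push_cast at hE
    have e : (α : ℝ) + 2 + z - (α + 1) = z + 1 := by ring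
    rw [e] at hE; exact hE
  · obtain ⟨μ, hμ⟩ : ∃ μ : ℝ, μ = (M : ℝ) + 1 - (2 * s - 2) := ⟨_, rfl⟩
    have hμ0 : 0 ≤ μ := by linarith
    have hM' : (M : ℝ) = 2 * s - 3 + μ := by linarith
    obtain ⟨κ, hκ⟩ : ∃ κ : ℝ, κ = (b : ℝ) - 3 := ⟨_, rfl⟩
    have hκ0 : 0 ≤ κ := by linarith
    have hk' : (k : ℝ) = s + (z + 1) + 3 + κ := by linarith
    have hpos' : 0 < 4 * s - 4 + μ := by linarith
    have e1 : ((M : ℝ) + 1) * ((k : ℝ) - 2 + 2 * s + M)
        = (2 * s - 2 + μ) * (5 * s + (z + 1) - 2 + μ + κ) := by rw [hM', hk']; ring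
    have e2 : s * (2 * s + M - 1) = s * (4 * s - 4 + μ) := by rw [hM']; ring
    rw [e1, e2] at hD
    have a1 : (4 * s - 4 + μ) * (5 * s + (z + 1) - 2)
        ≤ (2 * (2 * s - 2 + μ)) * (5 * s + (z + 1) - 2 + μ + κ) :=
      mul_le_mul (by linarith) (by linarith) (by linarith) (by linarith)
    have a2 := mul_le_mul_of_nonneg_right a1 p1.le
    have a3 : (4 * s - 4 + μ) * ((5 * s + (z + 1) - 2) * h1)
        ≤ (4 * s - 4 + μ) * (2 * s * (h0 + h1)) := by linarith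
    have a4 := le_of_mul_le_mul_left a3 hpos'
    linarith
  · exact hK

/-- Consequences of the failure of the generating-set reduction. -/
lemma star_conseq (hl : 2 ≤ l) (hk : 2 ≤ k) {n t ρ m : ℕ} (ht : 1 ≤ t) (hn : 2 * k ≤ n + t)
    (hnm : t + 2 * (ρ + 1) + m = n)
    (hstar : ((ρ : ℝ) + 1) * ff (wt l k) (t + ρ) (m + 1)
      < (t + 2 * ρ + 1) * ff (wt l k) (t + ρ + 1) m) :
    2 ≤ t ∧ t + ρ + 1 ≤ k ∧ ∃ M, m = M + 1 ∧ ∀ i ≤ ρ, ∀ c c' : ℕ, c + c' = 2 * (t + ρ) + 1 →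
      t + i ≤ c → t + i ≤ c' → 0 < ff (wt l k) c m →
      ((i : ℝ) + 1) * (ff (wt l k) c m + ff (wt l k) c' m)
        < (t + 2 * i + 1) * (ff (wt l k) (c + 1) M + ff (wt l k) (c' + 1) M) := by
  have n0 := F_nonneg l k m (t + ρ)
  have n1 := F_nonneg l k m (t + ρ + 1)
  have hρ : (0 : ℝ) ≤ ρ := Nat.cast_nonneg ρ
  have ht' : (1 : ℝ) ≤ t := by exact_mod_cast ht
  have hD := F_upper hl k m (t + ρ)
  have hpos : 0 < ff (wt l k) (t + ρ + 1) m := by
    have h1 := F_nonneg l k (m + 1) (t + ρ)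
    have : 0 < ((t : ℝ) + 2 * ρ + 1) * ff (wt l k) (t + ρ + 1) m :=
      lt_of_le_of_lt (by positivity) hstar
    exact (mul_pos_iff_of_pos_left (by positivity)).1 this
  have hαk : t + ρ + 1 ≤ k := by
    by_contra h
    rw [F_gt l m (by omega : k < t + ρ + 1)] at hpos
    exact lt_irrefl _ hpos
  rw [ff_succ] at hstar hD
  have ht2 : 2 ≤ t := by
    by_contra h
    have h1 : t = 1 := by omega
    subst h1
    have h2 := F_pair hl hk m (1 + ρ) (1 + ρ) (by omega)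
    have h3 : ff (wt l k) (1 + ρ + 1) m ≤ ff (wt l k) (1 + ρ) m := by nlinarith
    push_cast at hstar
    nlinarith
  have hm1 : 1 ≤ m := by
    by_contra h
    have h1 : m = 0 := by omega
    subst h1
    have h2 : k = t + ρ + 1 := by omega
    have h3 := wt_merge hl (k := k) (b := t + ρ) (by omega)
    rw [ff_zero, ff_zero] at hstar
    rw [ff_zero] at hpos
    have h4 : (k : ℝ) = t + ρ + 1 := by rw [h2]; push_cast; ring
    rw [h4] at h3
    push_cast at h3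
    have h5 : ((ρ : ℝ) + 1) * ((t + ρ) * wt l k (t + ρ + 1)) ≤ (ρ + 1) * wt l k (t + ρ) :=
      mul_le_mul_of_nonneg_left (by linarith) (by positivity)
    have h6 : 0 ≤ (ρ : ℝ) * (t + ρ) * wt l k (t + ρ + 1) := by positivity
    nlinarith
  have ht3 : 1 ≤ ρ → 3 ≤ t := by
    intro hρ1
    by_contra h
    have h1 : t = 2 := by omega
    subst h1
    have hρ1' : (1 : ℝ) ≤ ρ := by exact_mod_cast hρ1
    obtain ⟨s, hs⟩ : ∃ s : ℝ, s = (k : ℝ) - ((2 + ρ : ℕ) : ℝ) := ⟨_, rfl⟩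
    have hs1 : 1 ≤ s := by
      have : ((2 + ρ : ℕ) : ℝ) + 1 ≤ k := by exact_mod_cast hαk
      linarith
    obtain ⟨μ, hμ⟩ : ∃ μ : ℝ, μ = (m : ℝ) - (2 * s - 2) := ⟨_, rfl⟩
    have hμ0 : 0 ≤ μ := by
      have : 2 * (k : ℝ) ≤ 2 * ((2 + ρ : ℕ) : ℝ) + m + 2 := by
        exact_mod_cast (by omega : 2 * k ≤ 2 * (2 + ρ) + m + 2)
      linarith
    have hm' : (m : ℝ) = 2 * s - 2 + μ := by linarith
    have hk' : (k : ℝ) = s + 2 + ρ := by push_cast at hs; linarith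
    rw [← hs, hm', hk'] at hD
    set X0 := ff (wt l k) (2 + ρ) m
    set X1 := ff (wt l k) (2 + ρ + 1) m
    push_cast at hstar
    have a1 : 2 * (X0 + X1) < 5 * X1 := by
      have b1 : ((ρ : ℝ) + 1) * (2 * (X0 + X1)) < (ρ + 1) * (5 * X1) := by nlinarith
      exact lt_of_mul_lt_mul_left b1 (by positivity)
    have a2 : 5 * (s * (2 * s + (2 * s - 2 + μ) - 1))
        ≤ 2 * ((2 * s - 2 + μ + 1) * (s + 2 + ρ - 2 + 2 * s + (2 * s - 2 + μ))) := by
      nlinarith [mul_nonneg hμ0 hμ0, mul_nonneg hμ0 (show 0 ≤ s - 1 by linarith),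
        mul_nonneg (show 0 ≤ (ρ : ℝ) - 1 by linarith) (show 0 ≤ 2 * s - 1 + μ by linarith)]
    have a3 : 0 < s * (2 * s + (2 * s - 2 + μ) - 1) := by
      apply mul_pos <;> linarith
    have a4 := mul_lt_mul_of_pos_left a1 a3
    have a5 := mul_le_mul_of_nonneg_right a2 n1
    nlinarith
  obtain ⟨M, rfl⟩ : ∃ M, m = M + 1 := ⟨m - 1, by omega⟩
  refine ⟨ht2, hαk, M, rfl, ?_⟩
  have PI : ∀ c c' : ℕ, c + c' = 2 * (t + ρ) + 1 → c ≤ t + ρ → t ≤ c →
      ff (wt l k) (t + ρ + 1) (M + 1) * (ff (wt l k) c (M + 1) + ff (wt l k) c' (M + 1))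
      ≤ (ff (wt l k) (c + 1) M + ff (wt l k) (c' + 1) M)
        * (ff (wt l k) (t + ρ) (M + 1) + ff (wt l k) (t + ρ + 1) (M + 1)) := by
    intro c c' h1 h2 h3
    rcases h2.eq_or_lt with h | h
    · have h4 : c' = t + ρ + 1 := by omega
      rw [h, h4, ← ff_succ (wt l k) (t + ρ + 1) M]
    · obtain ⟨z, hz⟩ : ∃ z, c + z + 1 = t + ρ := ⟨t + ρ - c - 1, by omega⟩
      have h4 : c' = t + ρ + 2 + z := by omega
      rw [h4]
      exact pair_ineq hl M (t + ρ) z c (by omega) (by omega)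
        (le_trans (ht3 (by omega)) h3) hz hpos
  intro i hi c c' hcc hc hc' hcpos
  have PI' : ff (wt l k) (t + ρ + 1) (M + 1) * (ff (wt l k) c (M + 1) + ff (wt l k) c' (M + 1))
      ≤ (ff (wt l k) (c + 1) M + ff (wt l k) (c' + 1) M)
        * (ff (wt l k) (t + ρ) (M + 1) + ff (wt l k) (t + ρ + 1) (M + 1)) := by
    rcases le_or_gt c (t + ρ) with h | h
    · exact PI c c' hcc h (by omega)
    · have := PI c' c (by omega) (by omega) (by omega)
      rw [add_comm (ff (wt l k) c (M + 1)), add_comm (ff (wt l k) (c + 1) M)]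
      exact this
  have n2 := F_nonneg l k (M + 1) c'
  have n3 := F_nonneg l k M (c + 1)
  have n4 := F_nonneg l k M (c' + 1)
  set S := ff (wt l k) c (M + 1) + ff (wt l k) c' (M + 1)
  set Q := ff (wt l k) (c + 1) M + ff (wt l k) (c' + 1) M
  set X0 := ff (wt l k) (t + ρ) (M + 1)
  set X1 := ff (wt l k) (t + ρ + 1) (M + 1)
  have hS : 0 < S := by positivity
  have hi' : (i : ℝ) ≤ ρ := by exact_mod_cast hi
  have hi0 : (0 : ℝ) ≤ i := Nat.cast_nonneg i
  have a1 : ((i : ℝ) + 1) * (t + 2 * ρ + 1) ≤ (ρ + 1) * (t + 2 * i + 1) := by nlinarith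
  have a2 : ((i : ℝ) + 1) * (X0 + X1) < (t + 2 * i + 1) * X1 := by
    have b1 := mul_le_mul_of_nonneg_right a1 (show 0 ≤ X0 + X1 by positivity)
    have b2 := mul_lt_mul_of_pos_left hstar (show (0 : ℝ) < t + 2 * i + 1 by positivity)
    have b3 : ((t : ℝ) + 2 * ρ + 1) * ((i + 1) * (X0 + X1))
        < (t + 2 * ρ + 1) * ((t + 2 * i + 1) * X1) := by linarith
    exact lt_of_mul_lt_mul_left b3 (by positivity)
  have a3 := mul_lt_mul_of_pos_right a2 hS
  have a4 := mul_le_mul_of_nonneg_left PI' (show (0 : ℝ) ≤ t + 2 * i + 1 by positivity)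
  have a5 : (((i : ℝ) + 1) * S) * (X0 + X1) < ((t + 2 * i + 1) * Q) * (X0 + X1) := by linarith
  exact lt_of_mul_lt_mul_right a5 (by positivity)

end Pool.Agent.Lib.MP_8815b4_co
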