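import Pool.Agent.Lib.MP_8815b4_co.Comb2
import Pool.Agent.Lib.MP_8815b4_co.Pair

/-!
The weighted complete intersection theorem for the composition weights.
-/

namespace Pool.Agent.Lib.MP_8815b4_co

open Finset

/-- The Frankl family on `range r`. -/
def Afam (r t i : ℕ) : Finset (Finset ℕ) :=
  (powerset (range r)).filter (fun A => t + i ≤ #(A ∩ range (t + 2 * i)))

lemma lift_Afam {r t i : ℕ} (h : t + 2 * i ≤ r) : lift r (Afam r t i) = Afam (r + 1) t i := by
  ext A
  have hr : r ∉ range (t + 2 * i) := by rw [mem_range]; omega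
  constructor
  · intro hA
    obtain ⟨B, hB, -, rfl | rfl⟩ := mem_lift hA
    · obtain ⟨h1, h2⟩ := mem_filter.1 hB
      exact mem_filter.2 ⟨mem_powerset.2 ((mem_powerset.1 h1).trans
        (range_subset_range.2 (Nat.le_succ r))), h2⟩
    · obtain ⟨h1, h2⟩ := mem_filter.1 hB
      refine mem_filter.2 ⟨mem_powerset.2 (insert_sub (mem_powerset.1 h1)), ?_⟩
      rwa [insert_inter_of_notMem hr]
  · intro hA
    obtain ⟨h1, h2⟩ := mem_filter.1 hA
    have h3 : A.erase r ∈ Afam r t i := by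
      refine mem_filter.2 ⟨mem_powerset.2 fun x hx => ?_, ?_⟩
      · have := mem_range.1 (mem_powerset.1 h1 (mem_of_mem_erase hx))
        have := ne_of_mem_erase hx
        exact mem_range.2 (by omega)
      · rwa [erase_inter, erase_eq_of_notMem (fun h => hr (mem_inter.1 h).2)]
    by_cases hrA : r ∈ A
    · exact mem_union_right _ (mem_image.2 ⟨_, h3, insert_erase hrA⟩)
    · rw [erase_eq_of_notMem hrA] at h3
      exact mem_union_left _ h3

lemma V_lift_ff (w : ℕ → ℝ) {r m : ℕ} {G : Finset (Finset ℕ)} (h : ∀ A ∈ G, A ⊆ range r) :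
    V (fun c => ff w c m) (lift r G) = V (fun c => ff w c (m + 1)) G := by
  rw [V_lift (fun A hA => not_mem_of_sub (h A hA))]
  simp only [ff_succ]

lemma V_Afam (w : ℕ → ℝ) {t i : ℕ} : ∀ (m r : ℕ), t + 2 * i ≤ r →
    V (fun c => ff w c m) (Afam r t i) = V w (Afam (r + m) t i)
  | 0, r, _ => by simp only [ff_zero, add_zero]
  | m + 1, r, h => by
    rw [← V_lift_ff w (r := r) (G := Afam r t i)
      (fun A hA => mem_powerset.1 (mem_filter.1 hA).1), lift_Afam h,
      V_Afam w m (r + 1) (by omega)]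
    congr 2; ring

lemma exists_lift (w : ℕ → ℝ) {t : ℕ} (m : ℕ) : ∀ (j r : ℕ) (G : Finset (Finset ℕ)), Fam r t G →
    ∃ G', Fam (r + j) t G' ∧ V (fun c => ff w c m) G' = V (fun c => ff w c (m + j)) G
  | 0, r, G, h => ⟨G, h, rfl⟩
  | j + 1, r, G, h => by
    obtain ⟨G', h1, h2⟩ := exists_lift w m j (r + 1) (lift r G) (Fam_lift h)
    refine ⟨G', by rwa [show r + (j + 1) = r + 1 + j by ring], ?_⟩
    rw [h2, V_lift_ff w h.1]
    rfl

lemma V_mono {φ : ℕ → ℝ} (hφ : ∀ c, 0 ≤ φ c) {G G' : Finset (Finset ℕ)} (h : G ⊆ G') :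
    V φ G ≤ V φ G' := sum_le_sum_of_subset_of_nonneg h fun _ _ _ => hφ _

theorem wci_aux {l k n t : ℕ} (hl : 2 ≤ l) (hk : 2 ≤ k) (ht : 1 ≤ t) (htk : t ≤ k)
    (hn : 2 * k ≤ n + t) (r : ℕ) : ∀ m, r + m = n → ∀ G0, Fam r t G0 →
      (∀ G', Fam n t G' → V (wt l k) G' ≤ V (fun c => ff (wt l k) c m) G0) →
      ∃ i, t + i ≤ k ∧ ∀ G', Fam n t G' → V (wt l k) G' ≤ V (wt l k) (Afam n t i) := by
  induction r with
  | zero =>
    intro m hm G0 hG0 hdom
    refine ⟨0, by omega, fun G' hG' => (hdom G' hG').trans ?_⟩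
    have : G0 = ∅ := by
      rw [eq_empty_iff_forall_notMem]
      intro A hA
      have h1 := hG0.2 A hA A hA
      have h2 := card_le_card (hG0.1 A hA)
      rw [inter_self] at h1
      rw [card_range] at h2
      omega
    rw [this, V, sum_empty]
    exact sum_nonneg fun _ _ => wt_nonneg _ _ _
  | succ r ih =>
    intro m hm G0 hG0 hdom
    obtain ⟨G, hF, hopt, hS, hpos⟩ :=
      exists_shifted (r + 1) t (fun c => ff (wt l k) c m) (F_nonneg l k m)
    have hdom' : ∀ G', Fam n t G' → V (wt l k) G' ≤ V (fun c => ff (wt l k) c m) G :=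
      fun G' hG' => (hdom G' hG').trans (hopt G0 hG0)
    by_cases hrt : r + 1 ≤ t
    · obtain ⟨j, hj⟩ : ∃ j, r + 1 + j = t := ⟨t - (r + 1), by omega⟩
      obtain ⟨m', hm'⟩ : ∃ m', m = m' + j := ⟨m - j, by omega⟩
      obtain ⟨G1, h1, h2⟩ := exists_lift (wt l k) m' j (r + 1) G hF
      rw [hj] at h1
      refine ⟨0, by omega, fun G' hG' => (hdom' G' hG').trans ?_⟩
      rw [hm', ← h2, show n = t + m' by omega, ← V_Afam (wt l k) m' t (by omega)]
      refine V_mono (F_nonneg l k m') fun A hA => mem_filter.2 ⟨mem_powerset.2 (h1.1 A hA), ?_⟩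
      have h3 := h1.2 A hA A hA
      rw [inter_self] at h3
      rwa [mul_zero, add_zero, inter_eq_left.2 (h1.1 A hA)]
    by_cases hmid : ∀ a, 2 * a + 1 = r + t → r * ff (wt l k) (a + 1) m
        ≤ ((r : ℝ) - a) * (ff (wt l k) a m + ff (wt l k) (a + 1) m)
    · obtain ⟨G1, h1, h2⟩ := gen_step (by omega) ht (fun c => ff (wt l k) c m) (F_nonneg l k m)
        hF hS (fun a b hab => F_pair hl hk m a b (by omega)) hmid
      refine ih (m + 1) (by omega) G1 h1 fun G' hG' => (hdom' G' hG').trans (h2.trans ?_)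
      simp only [ff_succ]; exact le_rfl
    push Not at hmid
    obtain ⟨a, ha, hfail⟩ := hmid
    obtain ⟨ρ, hρ⟩ : ∃ ρ, a = t + ρ := ⟨a - t, by omega⟩
    have hr : r = t + 2 * ρ + 1 := by omega
    have hstar : ((ρ : ℝ) + 1) * ff (wt l k) (t + ρ) (m + 1)
        < (t + 2 * ρ + 1) * ff (wt l k) (t + ρ + 1) m := by
      rw [ff_succ]
      rw [hρ, hr] at hfail
      push_cast at hfail
      linarith
    obtain ⟨ht2, hαk, M, hM, hPI⟩ := star_conseq hl hk ht hn (by omega) hstar
    subst hM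
    have hsymm : ∀ q, q ≤ r + 1 → Symm q G := by
      intro q
      induction q with
      | zero =>
        intro _ A hA B h1 _
        simp only [range_zero, sdiff_empty] at h1
        rwa [h1]
      | succ q ihq =>
        intro hq
        have hsq := ihq (by omega)
        refine symm_succ hF hS hsq fun b hb1 hb => ?_
        by_cases hne : 2 * b = q + t
        · obtain ⟨i, hi⟩ : ∃ i, b = t + i := ⟨b - t, by omega⟩
          rw [hi]
          refine Xs_empty_mid (h := fun c => ff (wt l k) c M) (F_nonneg l k M) hF hS hsq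
            ?_ ?_ ?_ (by omega) ht (by omega) ?_
          · simpa only [ff_succ] using hopt
          · intro G' hG'
            obtain ⟨G2, h1, h2⟩ := exists_lift (wt l k) 0 M (r + 1 + 1) G' hG'
            have h3 := hdom' G2 (by rwa [show n = r + 1 + 1 + M by omega])
            simp only [ff_zero, zero_add] at h2
            rw [← h2]
            simpa only [ff_succ] using h3
          · simpa only [ff_succ] using hpos
          · intro c c' h1 h2 h3 h4
            have := hPI i (by omega) c c' (by omega) h2 h3 (by rw [ff_succ]; exact h4)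
            simpa only [ff_succ] using this
        · exact Xs_empty_of_ne (F_nonneg l k (M + 1)) hF hS hsq hopt hpos (by omega) ht2 hb1 hb
            hne
    refine ⟨ρ + 1, by omega, fun G' hG' => (hdom' G' hG').trans ?_⟩
    rw [← hm, ← V_Afam (wt l k) (M + 1) (r + 1) (by omega)]
    refine V_mono (F_nonneg l k _) fun A hA => mem_filter.2 ⟨mem_powerset.2 (hF.1 A hA), ?_⟩
    have h3 := card_ge_of_symm hF (hsymm _ le_rfl) ht hA
    rw [show t + 2 * (ρ + 1) = r + 1 by omega, inter_eq_left.2 (hF.1 A hA)]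
    omega

theorem wci {l k n t : ℕ} (hl : 2 ≤ l) (hk : 2 ≤ k) (ht : 1 ≤ t) (htk : t ≤ k)
    (hn : 2 * k ≤ n + t) :
    ∃ i, t + i ≤ k ∧ ∀ G', Fam n t G' → V (wt l k) G' ≤ V (wt l k) (Afam n t i) := by
  obtain ⟨G, hF, hopt, -, -⟩ := exists_shifted n t (wt l k) (wt_nonneg l k)
  exact wci_aux hl hk ht htk hn n 0 rfl G hF (by simpa only [ff_zero] using hopt)

end Pool.Agent.Lib.MP_8815b4_co
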