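import Pool.Agent.Lib.MP_8815b4_co.Seq

/-!
Inequalities for the weights of traces.
-/

namespace Pool.Agent.Lib.MP_8815b4_co

open Finset

/-- `ff w c m = ∑ j, choose m j * w (c + j)`. -/
noncomputable def ff (w : ℕ → ℝ) : ℕ → ℕ → ℝ
  | c, 0 => w c
  | c, m + 1 => ff w c m + ff w (c + 1) m

lemma ff_zero (w : ℕ → ℝ) (c : ℕ) : ff w c 0 = w c := by rw [ff]

lemma ff_succ (w : ℕ → ℝ) (c m : ℕ) : ff w c (m + 1) = ff w c m + ff w (c + 1) m := by rw [ff]

lemma ff_nonneg {w : ℕ → ℝ} (hw : ∀ s, 0 ≤ w s) : ∀ m c : ℕ, 0 ≤ ff w c m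
  | 0, c => by rw [ff_zero]; exact hw c
  | m + 1, c => by rw [ff_succ]; exact add_nonneg (ff_nonneg hw m c) (ff_nonneg hw m (c + 1))

lemma ff_gt {w : ℕ → ℝ} {k : ℕ} (hw : ∀ s, k < s → w s = 0) :
    ∀ m c : ℕ, k < c → ff w c m = 0
  | 0, c, h => by rw [ff_zero]; exact hw c h
  | m + 1, c, h => by rw [ff_succ, ff_gt hw m c h, ff_gt hw m (c + 1) (by omega), add_zero]

lemma cf2_succ (m : ℕ) (x : ℤ) : cf 2 (m + 1) x = cf 2 m x + cf 2 m (x - 1) := by
  rw [cf_succ, sum_range_succ, sum_range_one]; simp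

lemma cf2_deriv (m : ℕ) (x : ℤ) : (x : ℝ) * cf 2 (m + 1) x = (m + 1) * cf 2 m (x - 1) := by
  rw [cf_deriv, sum_range_succ, sum_range_one]; simp

lemma cf2_deriv' (m : ℕ) (x : ℤ) :
    ((m : ℝ) + 1 - x) * cf 2 (m + 1) x = (m + 1) * cf 2 m x := by
  have h1 := cf2_deriv m x
  have h2 := cf2_succ m x
  rw [sub_mul, h1, h2]; ring

lemma ff_eq_sum {w : ℕ → ℝ} {k : ℕ} (hw : ∀ s, k < s → w s = 0) :
    ∀ m c : ℕ, ff w c m = ∑ s ∈ range (k + 1), cf 2 m ((s : ℤ) - c) * w s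
  | 0, c => by
    rw [ff_zero, sum_eq_single c]
    · simp [cf_zero]
    · intro s _ hs
      rw [cf_zero, if_neg (by omega), zero_mul]
    · intro h
      rw [hw c (by simpa [mem_range] using h), mul_zero]
  | m + 1, c => by
    rw [ff_succ, ff_eq_sum hw m c, ff_eq_sum hw m (c + 1), ← sum_add_distrib]
    refine sum_congr rfl fun s _ => ?_
    rw [cf2_succ, add_mul]
    congr 3; push_cast; ring

lemma ff_ULC {w : ℕ → ℝ} {k : ℕ} (hw0 : ∀ s, 0 ≤ w s) (hw : ∀ s, k < s → w s = 0)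
    (hU : ULC k w) : ∀ m : ℕ, ULC k (fun c => ff w c m)
  | 0 => by simpa [ff_zero] using hU
  | m + 1 => by
    have ih := ff_ULC hw0 hw hU m
    intro b c hbc
    simp only [ff_succ]
    have u1 := ih b c hbc
    have u2 := ih (b + 1) (c + 1) (by omega)
    have u3 := ih b (c + 1) (by omega)
    have u4 : ((k : ℝ) - (b + 1 : ℕ)) * ff w (b + 1) m * ff w (c + 1) m
        ≤ ((k : ℝ) - c) * ff w (b + 1 + 1) m * ff w c m := by
      rcases (show b + 1 < c ∨ b + 1 = c by omega) with h | h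
      · exact ih (b + 1) c h
      · subst h; apply le_of_eq; ring
    simp only at u1 u2 u3
    have n1 := ff_nonneg hw0 m (b + 1)
    have n2 := ff_nonneg hw0 m (b + 1 + 1)
    have n3 := ff_nonneg hw0 m (c + 1)
    have n4 := ff_nonneg hw0 m (c + 1 + 1)
    have u5 : ((k : ℝ) - b) * ff w (b + 1) m * ff w (c + 1 + 1) m
        ≤ ((k : ℝ) - c) * ff w (b + 1 + 1) m * ff w (c + 1) m := by
      by_cases hck : k < c + 1
      · rw [ff_gt hw m (c + 1) hck, ff_gt hw m (c + 1 + 1) (by omega)]; simp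
      have hC : (1 : ℝ) ≤ (k : ℝ) - c := by
        have : ((c + 1 : ℕ) : ℝ) ≤ k := by exact_mod_cast (by omega : c + 1 ≤ k)
        push_cast at this; linarith
      have hBC : (c : ℝ) ≥ b + 1 := by exact_mod_cast hbc
      push_cast at u2
      set x := ff w (b + 1) m * ff w (c + 1 + 1) m with hx
      set y := ff w (b + 1 + 1) m * ff w (c + 1) m with hy
      have hx0 : 0 ≤ x := mul_nonneg n1 n4
      have hy0 : 0 ≤ y := mul_nonneg n2 n3
      have u2' : ((k : ℝ) - (b + 1)) * x ≤ ((k : ℝ) - (c + 1)) * y := by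
        rw [hx, hy]; linarith
      have hxy : x ≤ y := by
        by_contra hlt
        push Not at hlt
        nlinarith
      have : ((k : ℝ) - b) * x ≤ ((k : ℝ) - c) * y := by nlinarith
      rw [mul_assoc, mul_assoc]; exact this
    push_cast at u3 u4
    nlinarith

section main

variable {l k : ℕ}

lemma F_nonneg (l k m c : ℕ) : 0 ≤ ff (wt l k) c m := ff_nonneg (wt_nonneg l k) m c

lemma F_gt (l : ℕ) {k c : ℕ} (m : ℕ) (h : k < c) : ff (wt l k) c m = 0 :=
  ff_gt (fun _ h => wt_gt l h) m c h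

lemma F_ULC (l : ℕ) (hk : 1 ≤ k) (m : ℕ) : ULC k (fun c => ff (wt l k) c m) :=
  ff_ULC (wt_nonneg l k) (fun _ h => wt_gt l h) (wt_ULC l hk) m

lemma F_ratio (hl : 2 ≤ l) (hk : 2 ≤ k) : ∀ m c : ℕ, c < k →
    ((m : ℝ) + 2 - (k - c)) * ff (wt l k) (c + 1) m ≤ ((k : ℝ) - c) * ff (wt l k) c m
  | 0, c, hc => by
    rw [ff_zero, ff_zero]
    have n1 := wt_nonneg l k c
    have n2 := wt_nonneg l k (c + 1)
    rcases (show c + 1 = k ∨ c + 2 ≤ k by omega) with h | h
    · have h1 := wt_merge hl hc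
      have hk' : (k : ℝ) = c + 1 := by rw [← h]; push_cast; ring
      have hc1 : (1 : ℝ) ≤ c := by exact_mod_cast (by omega : 1 ≤ c)
      rw [hk'] at h1 ⊢
      push_cast
      nlinarith
    · have : (c : ℝ) + 2 ≤ k := by exact_mod_cast h
      push_cast
      nlinarith
  | m + 1, c, hc => by
    rw [ff_succ, ff_succ]
    have h1 := F_ratio hl hk m c hc
    have h2 : ((m : ℝ) + 2 - (k - (c + 1))) * ff (wt l k) (c + 1 + 1) m
        ≤ ((k : ℝ) - (c + 1)) * ff (wt l k) (c + 1) m := by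
      rcases (show c + 1 = k ∨ c + 1 < k by omega) with h | h
      · rw [F_gt l m (by omega : k < c + 1 + 1)]
        have hk' : (k : ℝ) = c + 1 := by rw [← h]; push_cast; ring
        rw [hk']; simp
      · have := F_ratio hl hk m (c + 1) h
        push_cast at this; exact this
    push_cast
    nlinarith

lemma F_pair (hl : 2 ≤ l) (hk : 2 ≤ k) (m a b : ℕ) (h : 2 * k ≤ a + b + m + 2) :
    ff (wt l k) (a + 1) m * ff (wt l k) (b + 1) m ≤ ff (wt l k) a m * ff (wt l k) b m := by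
  have n1 := F_nonneg l k m a
  have n2 := F_nonneg l k m b
  have n3 := F_nonneg l k m (a + 1)
  have n4 := F_nonneg l k m (b + 1)
  by_cases ha : k ≤ a
  · rw [F_gt l m (by omega : k < a + 1), zero_mul]; positivity
  by_cases hb : k ≤ b
  · rw [F_gt l m (by omega : k < b + 1), mul_zero]; positivity
  have h1 := F_ratio hl hk m a (by omega)
  have h2 := F_ratio hl hk m b (by omega)
  have hA : (0 : ℝ) < (k : ℝ) - a := by
    have : (a : ℝ) < k := by exact_mod_cast (by omega : a < k)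
    linarith
  have hB : (0 : ℝ) < (k : ℝ) - b := by
    have : (b : ℝ) < k := by exact_mod_cast (by omega : b < k)
    linarith
  have hm : 2 * (k : ℝ) ≤ a + b + m + 2 := by exact_mod_cast h
  have h3 : ((k : ℝ) - b) * ff (wt l k) (a + 1) m ≤ ((k : ℝ) - a) * ff (wt l k) a m := by
    nlinarith
  have h4 : ((k : ℝ) - a) * ff (wt l k) (b + 1) m ≤ ((k : ℝ) - b) * ff (wt l k) b m := by
    nlinarith
  have h5 := mul_le_mul h3 h4 (by positivity) (by positivity)
  have h6 : (((k : ℝ) - a) * ((k : ℝ) - b)) * (ff (wt l k) (a + 1) m * ff (wt l k) (b + 1) m)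
      ≤ (((k : ℝ) - a) * ((k : ℝ) - b)) * (ff (wt l k) a m * ff (wt l k) b m) := by
    nlinarith
  exact le_of_mul_le_mul_left h6 (by positivity)

lemma F_pos_pred (hl : 2 ≤ l) (hk : 2 ≤ k) (m c : ℕ) (h : k < c + m + 2)
    (hp : 0 < ff (wt l k) (c + 1) m) : 0 < ff (wt l k) c m := by
  have hc : c < k := by
    by_contra hc
    rw [F_gt l m (by omega : k < c + 1)] at hp
    exact lt_irrefl _ hp
  have h1 := F_ratio hl hk m c hc
  have h2 : (0 : ℝ) < (m : ℝ) + 2 - (k - c) := by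
    have : (k : ℝ) < c + m + 2 := by exact_mod_cast h
    linarith
  have h3 : (0 : ℝ) < (k : ℝ) - c := by
    have : (c : ℝ) < k := by exact_mod_cast hc
    linarith
  have := lt_of_lt_of_le (mul_pos h2 hp) h1
  exact (mul_pos_iff_of_pos_left h3).1 this

lemma F_first (l k M c : ℕ) :
    ((M : ℝ) + 1) * ff (wt l k) (c + 1) M
      = ∑ s ∈ range (k + 1), ((s : ℝ) - c) * (cf 2 (M + 1) ((s : ℤ) - c) * wt l k s) := by
  rw [ff_eq_sum (fun _ h => wt_gt l h) M (c + 1), mul_sum]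
  refine sum_congr rfl fun s _ => ?_
  have h := cf2_deriv M ((s : ℤ) - c)
  have e : (s : ℤ) - ((c + 1 : ℕ) : ℤ) = (s : ℤ) - c - 1 := by push_cast; ring
  rw [e, ← mul_assoc, ← h]
  push_cast; ring

lemma F_efron (l k M : ℕ) {a b : ℕ} (hab : a ≤ b) :
    ((M : ℝ) + 1) * ff (wt l k) (a + 1) M * ff (wt l k) b (M + 1)
      ≤ ((M : ℝ) + 1) * ff (wt l k) (b + 1) M * ff (wt l k) a (M + 1)
        + ((b : ℝ) - a) * ff (wt l k) a (M + 1) * ff (wt l k) b (M + 1) := by
  rw [F_first, F_first, ff_eq_sum (fun _ h => wt_gt l h) (M + 1) a,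
    ff_eq_sum (fun _ h => wt_gt l h) (M + 1) b]
  set p : ℕ → ℝ := fun s => cf 2 (M + 1) ((s : ℤ) - a) * wt l k s with hp
  set q : ℕ → ℝ := fun s => cf 2 (M + 1) ((s : ℤ) - b) * wt l k s with hq
  have key : 0 ≤ ∑ s ∈ range (k + 1), ∑ s' ∈ range (k + 1), ((s' : ℝ) - s) * (p s * q s') := by
    have h2 : 2 * ∑ s ∈ range (k + 1), ∑ s' ∈ range (k + 1), ((s' : ℝ) - s) * (p s * q s')
        = ∑ s ∈ range (k + 1), ∑ s' ∈ range (k + 1),
          (((s' : ℝ) - s) * (p s * q s') + ((s : ℝ) - s') * (p s' * q s)) := by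
      simp_rw [sum_add_distrib]
      rw [two_mul]
      congr 1
      exact sum_comm
    have h3 : 0 ≤ ∑ s ∈ range (k + 1), ∑ s' ∈ range (k + 1),
          (((s' : ℝ) - s) * (p s * q s') + ((s : ℝ) - s') * (p s' * q s)) := by
      refine sum_nonneg fun s _ => sum_nonneg fun s' _ => ?_
      have hw := mul_nonneg (wt_nonneg l k s) (wt_nonneg l k s')
      rcases le_total s s' with h | h
      · have h4 := cf_PF2 2 (M + 1) ((s : ℤ) - b) ((s : ℤ) - a) ((s' : ℤ) - b) ((s' : ℤ) - a)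
          (by omega) (by omega) (by ring)
        have h5 : (0 : ℝ) ≤ (s' : ℝ) - s := by
          have : (s : ℝ) ≤ s' := by exact_mod_cast h
          linarith
        have := mul_nonneg h5 (mul_nonneg hw (sub_nonneg.2 h4))
        simp only [hp, hq]
        nlinarith
      · have h4 := cf_PF2 2 (M + 1) ((s' : ℤ) - b) ((s' : ℤ) - a) ((s : ℤ) - b) ((s : ℤ) - a)
          (by omega) (by omega) (by ring)
        have h5 : (0 : ℝ) ≤ (s : ℝ) - s' := by
          have : (s' : ℝ) ≤ s := by exact_mod_cast h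
          linarith
        have := mul_nonneg h5 (mul_nonneg hw (sub_nonneg.2 h4))
        simp only [hp, hq]
        nlinarith
    linarith
  have e : ∑ s ∈ range (k + 1), ∑ s' ∈ range (k + 1), ((s' : ℝ) - s) * (p s * q s')
      = (∑ s ∈ range (k + 1), ((s : ℝ) - b) * q s) * (∑ s ∈ range (k + 1), p s)
        + ((b : ℝ) - a) * (∑ s ∈ range (k + 1), p s) * (∑ s ∈ range (k + 1), q s)
        - (∑ s ∈ range (k + 1), ((s : ℝ) - a) * p s) * (∑ s ∈ range (k + 1), q s) := by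
    rw [mul_comm (∑ s ∈ range (k + 1), ((s : ℝ) - b) * q s), mul_assoc, sum_mul_sum, sum_mul_sum,
      sum_mul_sum, mul_sum, ← sum_add_distrib, ← sum_sub_distrib]
    refine sum_congr rfl fun s _ => ?_
    rw [mul_sum, ← sum_add_distrib, ← sum_sub_distrib]
    refine sum_congr rfl fun s' _ => ?_
    ring
  rw [e] at key
  linarith

lemma F_upper (hl : 2 ≤ l) (k M c : ℕ) :
    ((M : ℝ) + 1) * ((k : ℝ) - 2 + 2 * (k - c) + M) * ff (wt l k) (c + 1) M
      ≤ ((k : ℝ) - c) * (2 * (k - c) + M - 1) * ff (wt l k) c (M + 1) := by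
  have hA : ∑ s ∈ range (k + 1), ((k : ℝ) - s) * ((M : ℝ) + 1 - (s - c))
        * (cf 2 (M + 1) ((s : ℤ) - c) * wt l k s)
      = ∑ s ∈ range k, ((M : ℝ) + 1) * cf 2 M ((s : ℤ) - c) * (((k : ℝ) - s) * wt l k s) := by
    rw [sum_range_succ, sub_self, zero_mul, zero_mul, add_zero]
    refine sum_congr rfl fun s _ => ?_
    have h := cf2_deriv' M ((s : ℤ) - c)
    push_cast at h
    rw [← h]; ring
  have hB : ∑ s ∈ range (k + 1), (3 * (s : ℝ) - 2 * k - 1) * ((s : ℝ) - c)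
        * (cf 2 (M + 1) ((s : ℤ) - c) * wt l k s)
      = ∑ s ∈ range k, ((M : ℝ) + 1) * cf 2 M ((s : ℤ) - c)
        * ((3 * (s : ℝ) - 2 * k + 2) * wt l k (s + 1)) := by
    rw [sum_range_succ']
    have h0 := cf2_deriv M (((0 : ℕ) : ℤ) - c)
    rw [cf_neg 2 M _ (by omega)] at h0
    have e0 : (3 * ((0 : ℕ) : ℝ) - 2 * k - 1) * (((0 : ℕ) : ℝ) - c)
        * (cf 2 (M + 1) (((0 : ℕ) : ℤ) - c) * wt l k 0) = 0 := by
      push_cast at h0 ⊢
      linear_combination ((3 * (0 : ℝ) - 2 * k - 1) * wt l k 0) * h0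
    rw [e0, add_zero]
    refine sum_congr rfl fun s _ => ?_
    have h := cf2_deriv M (((s + 1 : ℕ) : ℤ) - c)
    have e : ((s + 1 : ℕ) : ℤ) - c - 1 = (s : ℤ) - c := by push_cast; ring
    rw [e] at h
    push_cast at h ⊢
    linear_combination ((3 * (s : ℝ) - 2 * k + 2) * wt l k (s + 1)) * h
  have hAB : ∑ s ∈ range k, ((M : ℝ) + 1) * cf 2 M ((s : ℤ) - c)
        * ((3 * (s : ℝ) - 2 * k + 2) * wt l k (s + 1))
      ≤ ∑ s ∈ range k, ((M : ℝ) + 1) * cf 2 M ((s : ℤ) - c) * (((k : ℝ) - s) * wt l k s) := by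
    refine sum_le_sum fun s hs => ?_
    have := cf_nonneg 2 M ((s : ℤ) - c)
    exact mul_le_mul_of_nonneg_left (wt_merge hl (mem_range.1 hs)) (by positivity)
  rw [← hA, ← hB] at hAB
  have h1 := F_first l k M c
  have h2 := ff_eq_sum (fun _ h => wt_gt l h) (M + 1) c (k := k)
  have h3 : ∑ s ∈ range (k + 1), (((k : ℝ) - s) * ((M : ℝ) + 1 - (s - c))
        * (cf 2 (M + 1) ((s : ℤ) - c) * wt l k s)
        - (3 * (s : ℝ) - 2 * k - 1) * ((s : ℝ) - c) * (cf 2 (M + 1) ((s : ℤ) - c) * wt l k s))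
      ≤ ∑ s ∈ range (k + 1), (((k : ℝ) - c) * (2 * (k - c) + M - 1)
        * (cf 2 (M + 1) ((s : ℤ) - c) * wt l k s)
        - ((k : ℝ) - 2 + 2 * (k - c) + M) * (((s : ℝ) - c)
          * (cf 2 (M + 1) ((s : ℤ) - c) * wt l k s))) := by
    refine sum_le_sum fun s _ => ?_
    have hT : 0 ≤ cf 2 (M + 1) ((s : ℤ) - c) * wt l k s :=
      mul_nonneg (cf_nonneg _ _ _) (wt_nonneg _ _ _)
    have hsq : (0 : ℝ) ≤ ((k : ℝ) - s) * ((k : ℝ) - s - 1) := by
      have : (0 : ℤ) ≤ ((k : ℤ) - s) * ((k : ℤ) - s - 1) := by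
        rcases le_or_gt ((k : ℤ) - s) 0 with h | h
        · exact mul_nonneg_of_nonpos_of_nonpos h (by omega)
        · exact mul_nonneg (by omega) (by omega)
      exact_mod_cast this
    nlinarith [mul_nonneg hsq hT]
  rw [sum_sub_distrib, sum_sub_distrib, ← mul_sum, ← mul_sum, ← h1, ← h2] at h3
  nlinarith

end main

end Pool.Agent.Lib.MP_8815b4_co
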