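import Pool.Agent.Lib.MP_8815b4_co.Comb3

/-!
Multisets as multiplicity functions: kernel reduction and counting by supports.
-/

namespace Pool.Agent.Lib.MP_8815b4_co

open Finset

open Classical in
/-- Multiplicity functions on `range n`, bounded by `l`, of total mass `k`. -/
noncomputable def Om (n l k : ℕ) : Finset (ℕ → ℕ) :=
  (piAntidiag (range n) k).filter (fun μ => ∀ x, μ x ≤ l)

lemma mem_Om {n l k : ℕ} {μ : ℕ → ℕ} :
    μ ∈ Om n l k ↔ ∑ x ∈ range n, μ x = k ∧ (∀ x, μ x ≠ 0 → x < n) ∧ ∀ x, μ x ≤ l := by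
  classical
  unfold Om
  rw [mem_filter, mem_piAntidiag]
  simp only [mem_range, and_assoc]

/-- The size of the intersection of two multisets inside the kernel `τ`. -/
def Ik (n : ℕ) (τ μ ν : ℕ → ℕ) : ℕ := ∑ x ∈ range n, min (min (μ x) (ν x)) (τ x)

lemma Ik_comm (n : ℕ) (τ μ ν : ℕ → ℕ) : Ik n τ μ ν = Ik n τ ν μ :=
  sum_congr rfl fun x _ => by rw [min_comm (μ x)]

lemma sum_two {n i j : ℕ} (hi : i < n) (hj : j < n) (hij : i ≠ j) (f : ℕ → ℕ) :
    ∑ x ∈ range n, f x = f i + f j + ∑ x ∈ ((range n).erase i).erase j, f x := by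
  rw [← add_sum_erase _ f (mem_range.2 hi),
    ← add_sum_erase _ f (mem_erase.2 ⟨hij.symm, mem_range.2 hj⟩), add_assoc]

/-- There is a family of `N` multisets with `t`-kernel `τ`. -/
def HasKer (n l k t N : ℕ) (τ : ℕ → ℕ) : Prop :=
  ∃ F ⊆ Om n l k, #F = N ∧ ∀ μ ∈ F, ∀ ν ∈ F, t ≤ Ik n τ μ ν

/-- Move the part of column `i` from height `s` on to the empty column `j`. -/
def mv (i j s : ℕ) (μ : ℕ → ℕ) : ℕ → ℕ :=
  fun x => if x = i then s - 1 else if x = j then μ i - s + 1 else μ x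

lemma mv_i (i j s : ℕ) (μ : ℕ → ℕ) : mv i j s μ i = s - 1 := by simp [mv]

lemma mv_j {i j : ℕ} (h : i ≠ j) (s : ℕ) (μ : ℕ → ℕ) : mv i j s μ j = μ i - s + 1 := by
  simp [mv, h.symm]

lemma mv_other {i j x : ℕ} (h1 : x ≠ i) (h2 : x ≠ j) (s : ℕ) (μ : ℕ → ℕ) :
    mv i j s μ x = μ x := by simp [mv, h1, h2]

lemma Ik_split {n i j : ℕ} (hi : i < n) (hj : j < n) (hij : i ≠ j) (τ μ ν μ' ν' : ℕ → ℕ)
    (h1 : ∀ x, x ≠ i → x ≠ j → μ' x = μ x) (h2 : ∀ x, x ≠ i → x ≠ j → ν' x = ν x) :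
    Ik n τ μ' ν' + (min (min (μ i) (ν i)) (τ i) + min (min (μ j) (ν j)) (τ j))
      = Ik n τ μ ν + (min (min (μ' i) (ν' i)) (τ i) + min (min (μ' j) (ν' j)) (τ j)) := by
  rw [Ik, Ik, sum_two hi hj hij, sum_two hi hj hij]
  have : ∑ x ∈ ((range n).erase i).erase j, min (min (μ' x) (ν' x)) (τ x)
      = ∑ x ∈ ((range n).erase i).erase j, min (min (μ x) (ν x)) (τ x) := by
    refine sum_congr rfl fun x hx => ?_
    have a1 := (mem_erase.1 hx).1
    have a2 := (mem_erase.1 (mem_erase.1 hx).2).1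
    rw [h1 x a2 a1, h2 x a2 a1]
  rw [this]; ring

lemma ker_step {n l k t N i : ℕ} {τ : ℕ → ℕ} (hn : 2 * k ≤ n + t) (hτ : ∀ x, 1 ≤ τ x)
    (hi : i < n) (hs : 2 ≤ τ i) (h : HasKer n l k t N τ) :
    HasKer n l k t N (Function.update τ i (τ i - 1)) := by
  classical
  set s := τ i with hsdef
  have hex : ∃ c, ∃ F ⊆ Om n l k, #F = N ∧ (∀ μ ∈ F, ∀ ν ∈ F, t ≤ Ik n τ μ ν) ∧
      #(F.filter (fun μ => s ≤ μ i)) = c := by
    obtain ⟨F, h1, h2, h3⟩ := h
    exact ⟨_, F, h1, h2, h3, rfl⟩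
  obtain ⟨F, hF1, hF2, hF3, hF4⟩ := Nat.find_spec hex
  have hclosed : ∀ j, j < n → i ≠ j → ∀ μ ∈ F, s ≤ μ i → μ j = 0 → mv i j s μ ∈ F := by
    intro j hj hij μ0 hμ0 a0 b0
    by_contra hnot
    set ψ : (ℕ → ℕ) → (ℕ → ℕ) := fun μ =>
      if s ≤ μ i ∧ μ j = 0 ∧ mv i j s μ ∉ F then mv i j s μ else μ with hψ
    have hcases : ∀ μ, (s ≤ μ i ∧ μ j = 0 ∧ mv i j s μ ∉ F ∧ ψ μ = mv i j s μ) ∨
        (¬ (s ≤ μ i ∧ μ j = 0 ∧ mv i j s μ ∉ F) ∧ ψ μ = μ) := by
      intro μ
      by_cases h : s ≤ μ i ∧ μ j = 0 ∧ mv i j s μ ∉ F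
      · exact Or.inl ⟨h.1, h.2.1, h.2.2, if_pos h⟩
      · exact Or.inr ⟨h, if_neg h⟩
    have hinj : Set.InjOn ψ F := by
      intro μ hμ ν hν hAB
      rcases hcases μ with ⟨a1, a2, a3, a4⟩ | ⟨-, a4⟩ <;>
        rcases hcases ν with ⟨b1, b2, b3, b4⟩ | ⟨-, b4⟩
      · rw [a4, b4] at hAB
        funext x
        by_cases h1 : x = i
        · have := congrFun hAB j
          rw [mv_j hij, mv_j hij] at this
          rw [h1]; omega
        · by_cases h2 : x = j
          · rw [h2, a2, b2]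
          · have := congrFun hAB x
            rwa [mv_other h1 h2, mv_other h1 h2] at this
      · rw [a4, b4] at hAB; exact absurd (hAB ▸ hν) a3
      · rw [a4, b4] at hAB; exact absurd (hAB ▸ hμ) b3
      · rw [a4, b4] at hAB; exact hAB
    have hτj := hτ j
    have hmixed : ∀ μ ∈ F, ∀ ν ∈ F, s ≤ μ i → μ j = 0 →
        ¬ (s ≤ ν i ∧ ν j = 0 ∧ mv i j s ν ∉ F) → t ≤ Ik n τ (mv i j s μ) ν := by
      intro μ hμ ν hν a1 a2 hb
      have e1 := Ik_split hi hj hij τ μ ν (mv i j s μ) ν (fun x h1 h2 => mv_other h1 h2 _ _)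
        (fun _ _ _ => rfl)
      rw [mv_i, mv_j hij, a2, ← hsdef] at e1
      have h3 := hF3 μ hμ ν hν
      by_cases b : s ≤ ν i ∧ ν j = 0
      · have b3 : mv i j s ν ∈ F := by tauto
        have h4 := hF3 μ hμ _ b3
        have e2 := Ik_split hi hj hij τ μ ν μ (mv i j s ν) (fun _ _ _ => rfl)
          (fun x h1 h2 => mv_other h1 h2 _ _)
        rw [mv_i, mv_j hij, a2, ← hsdef] at e2
        omega
      · omega
    have hnew : ∃ F' ⊆ Om n l k, #F' = N ∧ (∀ μ ∈ F', ∀ ν ∈ F', t ≤ Ik n τ μ ν) ∧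
        #(F'.filter (fun μ => s ≤ μ i)) = #((F.image ψ).filter (fun μ => s ≤ μ i)) := by
      refine ⟨F.image ψ, fun μ' hμ' => ?_, by rw [card_image_of_injOn hinj, hF2], ?_, rfl⟩
      · obtain ⟨μ, hμ, rfl⟩ := mem_image.1 hμ'
        rcases hcases μ with ⟨a1, a2, -, a4⟩ | ⟨-, a4⟩
        · rw [a4]
          obtain ⟨m1, m2, m3⟩ := mem_Om.1 (hF1 hμ)
          refine mem_Om.2 ⟨?_, fun x hx => ?_, fun x => ?_⟩
          · rw [sum_two hi hj hij] at m1 ⊢
            have e : ∑ x ∈ ((range n).erase i).erase j, mv i j s μ x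
                = ∑ x ∈ ((range n).erase i).erase j, μ x := sum_congr rfl (fun x hx =>
              mv_other (mem_erase.1 (mem_erase.1 hx).2).1 (mem_erase.1 hx).1 _ _)
            rw [mv_i, mv_j hij, e]
            omega
          · by_cases h1 : x = i
            · rw [h1]; exact hi
            · by_cases h2 : x = j
              · rw [h2]; exact hj
              · rw [mv_other h1 h2] at hx; exact m2 x hx
          · have := m3 i
            by_cases h1 : x = i
            · rw [h1, mv_i]; omega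
            · by_cases h2 : x = j
              · rw [h2, mv_j hij]; omega
              · rw [mv_other h1 h2]; exact m3 x
        · rw [a4]; exact hF1 hμ
      · intro μ' hμ' ν' hν'
        obtain ⟨μ, hμ, rfl⟩ := mem_image.1 hμ'
        obtain ⟨ν, hν, rfl⟩ := mem_image.1 hν'
        rcases hcases μ with ⟨a1, a2, a3, a4⟩ | ⟨a1, a4⟩ <;>
          rcases hcases ν with ⟨b1, b2, b3, b4⟩ | ⟨b1, b4⟩ <;> rw [a4, b4]
        · have e1 := Ik_split hi hj hij τ μ ν (mv i j s μ) (mv i j s ν)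
            (fun x h1 h2 => mv_other h1 h2 _ _) (fun x h1 h2 => mv_other h1 h2 _ _)
          rw [mv_i, mv_i, mv_j hij, mv_j hij, a2, b2, ← hsdef] at e1
          have h3 := hF3 μ hμ ν hν
          omega
        · exact hmixed μ hμ ν hν a1 a2 b1
        · rw [Ik_comm]; exact hmixed ν hν μ hμ b1 b2 a1
        · exact hF3 μ hμ ν hν
    have hle := Nat.find_min' hex hnew
    rw [← hF4] at hle
    refine absurd hle (not_le.2 (card_lt_card ⟨fun μ' hμ' => ?_, fun hsub => ?_⟩))
    · obtain ⟨h1, h2⟩ := mem_filter.1 hμ'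
      obtain ⟨μ, hμ, rfl⟩ := mem_image.1 h1
      rcases hcases μ with ⟨a1, a2, -, a4⟩ | ⟨-, a4⟩
      · rw [a4, mv_i] at h2; omega
      · rw [a4] at h2 ⊢; exact mem_filter.2 ⟨hμ, h2⟩
    · obtain ⟨h1, -⟩ := mem_filter.1 (hsub (mem_filter.2 ⟨hμ0, a0⟩))
      obtain ⟨μ, hμ, h2⟩ := mem_image.1 h1
      rcases hcases μ with ⟨a1, a2, -, a4⟩ | ⟨a1, a4⟩
      · rw [a4] at h2
        have := congrFun h2 i
        rw [mv_i] at this; omega
      · rw [a4] at h2
        subst h2
        exact a1 ⟨a0, b0, hnot⟩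
  refine ⟨F, hF1, hF2, fun μ hμ ν hν => ?_⟩
  have e0 : Ik n (Function.update τ i (s - 1)) μ ν + min (min (μ i) (ν i)) s
      = Ik n τ μ ν + min (min (μ i) (ν i)) (s - 1) := by
    rw [Ik, Ik, ← add_sum_erase _ _ (mem_range.2 hi), ← add_sum_erase _ _ (mem_range.2 hi),
      Function.update_self, ← hsdef, sum_congr rfl (g := fun x => min (min (μ x) (ν x)) (τ x))
        (fun x hx => by rw [Function.update_of_ne (mem_erase.1 hx).1])]
    ring
  have h3 := hF3 μ hμ ν hν
  by_contra hlt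
  have a1 : s ≤ μ i := by omega
  have b1 : s ≤ ν i := by omega
  have hI : Ik n τ μ ν = t := by omega
  obtain ⟨j, hj, hj1, hj2⟩ : ∃ j, j < n ∧ μ j = 0 ∧ ν j = 0 := by
    by_contra hne
    push Not at hne
    have m1 := (mem_Om.1 (hF1 hμ)).1
    have m2 := (mem_Om.1 (hF1 hν)).1
    have hlt' : ∑ x ∈ range n, (1 + min (min (μ x) (ν x)) (τ x))
        < ∑ x ∈ range n, (μ x + ν x) := by
      refine sum_lt_sum (fun x hx => ?_) ⟨i, mem_range.2 hi, ?_⟩
      · have := hne x (mem_range.1 hx)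
        omega
      · omega
    rw [sum_add_distrib, sum_add_distrib, m1, m2, sum_const, card_range, smul_eq_mul] at hlt'
    rw [Ik] at hI
    omega
  have hij : i ≠ j := by
    rintro rfl
    omega
  have h4 := hF3 _ (hclosed j hj hij μ hμ a1 hj1) ν hν
  have e1 := Ik_split hi hj hij τ μ ν (mv i j s μ) ν (fun x h1 h2 => mv_other h1 h2 _ _)
    (fun _ _ _ => rfl)
  rw [mv_i, mv_j hij, hj1, hj2, ← hsdef] at e1
  omega

lemma ker_one {n l k t N : ℕ} (hn : 2 * k ≤ n + t) (c : ℕ) : ∀ τ : ℕ → ℕ, (∀ x, 1 ≤ τ x) →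
    ∑ x ∈ range n, τ x ≤ c → HasKer n l k t N τ → HasKer n l k t N (fun _ => 1) := by
  have hdone : ∀ τ : ℕ → ℕ, (∀ x, x < n → τ x = 1) → HasKer n l k t N τ →
      HasKer n l k t N (fun _ => 1) := by
    rintro τ hτ ⟨F, h1, h2, h3⟩
    refine ⟨F, h1, h2, fun μ hμ ν hν => (h3 μ hμ ν hν).trans (le_of_eq ?_)⟩
    exact sum_congr rfl fun x hx => by rw [hτ x (mem_range.1 hx)]
  induction c with
  | zero =>
    intro τ h1 h2 h3
    refine hdone τ (fun x hx => ?_) h3
    have := single_le_sum (f := τ) (fun _ _ => Nat.zero_le _) (mem_range.2 hx)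
    have := h1 x
    omega
  | succ c ih =>
    intro τ h1 h2 h3
    by_cases h : ∀ x, x < n → τ x = 1
    · exact hdone τ h h3
    push Not at h
    obtain ⟨i, hi, hi'⟩ := h
    have hs : 2 ≤ τ i := by have := h1 i; omega
    refine ih _ (fun x => ?_) ?_ (ker_step hn h1 hi hs h3)
    · by_cases hx : x = i
      · rw [hx, Function.update_self]; omega
      · rw [Function.update_of_ne hx]; exact h1 x
    · rw [← add_sum_erase _ _ (mem_range.2 hi)] at h2 ⊢
      have e : ∑ x ∈ (range n).erase i, Function.update τ i (τ i - 1) x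
          = ∑ x ∈ (range n).erase i, τ x :=
        sum_congr rfl (fun x hx => by rw [Function.update_of_ne (mem_erase.1 hx).1])
      rw [Function.update_self, e]
      omega

open Classical in
/-- Multiplicity functions with support exactly `S`. -/
noncomputable def Cs (l : ℕ) (S : Finset ℕ) (k : ℕ) : Finset (ℕ → ℕ) :=
  (piAntidiag S k).filter (fun μ => ∀ x ∈ S, 1 ≤ μ x ∧ μ x ≤ l)

lemma mem_Cs {l k : ℕ} {S : Finset ℕ} {μ : ℕ → ℕ} :
    μ ∈ Cs l S k ↔ ∑ x ∈ S, μ x = k ∧ (∀ x, μ x ≠ 0 → x ∈ S) ∧ ∀ x ∈ S, 1 ≤ μ x ∧ μ x ≤ l := by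
  classical
  unfold Cs
  rw [mem_filter, mem_piAntidiag, and_assoc]

lemma card_Cs (l : ℕ) (S : Finset ℕ) : ∀ k : ℕ, (#(Cs l S k) : ℝ) = cf l #S ((k : ℤ) - #S) := by
  classical
  induction S using Finset.induction_on with
  | empty =>
    intro k
    rw [card_empty, cf_zero]
    split_ifs with h
    · have hk : k = 0 := by omega
      have : Cs l ∅ k = {0} := by
        ext μ
        rw [mem_Cs, mem_singleton, hk]
        constructor
        · rintro ⟨-, h2, -⟩
          funext x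
          by_contra hx
          exact notMem_empty x (h2 x hx)
        · rintro rfl
          simp
      rw [this]; simp
    · have : Cs l ∅ k = ∅ := by
        rw [eq_empty_iff_forall_notMem]
        intro μ hμ
        have := (mem_Cs.1 hμ).1
        rw [sum_empty] at this
        omega
      rw [this]; simp
  | insert x S hx ih =>
    intro k
    rw [card_insert_of_notMem hx, cf_succ,
      card_eq_sum_card_fiberwise (f := fun μ => μ x - 1) (t := range l) (fun μ hμ => by
        have := (mem_Cs.1 (mem_coe.1 hμ)).2.2 x (mem_insert_self _ _)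
        exact mem_coe.2 (mem_range.2 (show μ x - 1 < l by omega)))]
    push_cast
    refine sum_congr rfl fun j hj => ?_
    have hj' := mem_range.1 hj
    by_cases hjk : j + 1 ≤ k
    · have e : (k : ℤ) - (#S + 1) - j = ((k - (j + 1) : ℕ) : ℤ) - #S := by omega
      rw [e, ← ih]
      congr 1
      refine card_nbij' (fun μ => Function.update μ x 0) (fun ν => Function.update ν x (j + 1))
        ?_ ?_ ?_ ?_
      · intro μ hμ
        obtain ⟨h1, h2⟩ := mem_filter.1 (mem_coe.1 hμ)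
        obtain ⟨m1, m2, m3⟩ := mem_Cs.1 h1
        have := m3 x (mem_insert_self _ _)
        have hup : ∀ y ∈ S, Function.update μ x 0 y = μ y := fun y hy =>
          Function.update_of_ne (fun h : y = x => hx (h ▸ hy)) _ _
        beta_reduce
        refine mem_coe.2 (mem_Cs.2 ⟨?_, fun y hy => ?_, fun y hy => ?_⟩)
        · have e' : ∑ y ∈ S, Function.update μ x 0 y = ∑ y ∈ S, μ y := sum_congr rfl hup
          rw [e']
          rw [sum_insert hx] at m1
          omega
        · by_cases hyx : y = x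
          · rw [hyx, Function.update_self] at hy; exact absurd rfl hy
          · rw [Function.update_of_ne hyx] at hy
            exact (mem_insert.1 (m2 y hy)).resolve_left hyx
        · rw [hup y hy]; exact m3 y (mem_insert_of_mem hy)
      · intro ν hν
        obtain ⟨m1, m2, m3⟩ := mem_Cs.1 (mem_coe.1 hν)
        have hup : ∀ y ∈ S, Function.update ν x (j + 1) y = ν y := fun y hy =>
          Function.update_of_ne (fun h : y = x => hx (h ▸ hy)) _ _
        beta_reduce
        refine mem_coe.2 (mem_filter.2 ⟨mem_Cs.2 ⟨?_, fun y hy => ?_, fun y hy => ?_⟩, ?_⟩)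
        · have e' : ∑ y ∈ S, Function.update ν x (j + 1) y = ∑ y ∈ S, ν y := sum_congr rfl hup
          rw [sum_insert hx, e', Function.update_self]
          omega
        · by_cases hyx : y = x
          · rw [hyx]; exact mem_insert_self _ _
          · rw [Function.update_of_ne hyx] at hy
            exact mem_insert_of_mem (m2 y hy)
        · rcases mem_insert.1 hy with h | h
          · rw [h, Function.update_self]; omega
          · rw [hup y h]; exact m3 y h
        · simp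
      · intro μ hμ
        obtain ⟨h1, h2⟩ := mem_filter.1 (mem_coe.1 hμ)
        have := (mem_Cs.1 h1).2.2 x (mem_insert_self _ _)
        simp only [Function.update_idem]
        rw [show j + 1 = μ x by omega, Function.update_eq_self]
      · intro ν hν
        have h0 : ν x = 0 := by
          by_contra h
          exact hx ((mem_Cs.1 (mem_coe.1 hν)).2.1 x h)
        simp only [Function.update_idem]
        rw [← h0, Function.update_eq_self]
    · rw [cf_neg _ _ _ (by omega), Nat.cast_eq_zero, card_eq_zero, eq_empty_iff_forall_notMem]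
      intro μ hμ
      obtain ⟨h1, h2⟩ := mem_filter.1 hμ
      obtain ⟨m1, m2, m3⟩ := mem_Cs.1 h1
      have := m3 x (mem_insert_self _ _)
      rw [sum_insert hx] at m1
      omega

/-- The support of a multiplicity function. -/
def supp (n : ℕ) (μ : ℕ → ℕ) : Finset ℕ := (range n).filter (fun x => μ x ≠ 0)

lemma card_filter_supp {n l k : ℕ} {G : Finset (Finset ℕ)} (hG : ∀ A ∈ G, A ⊆ range n) :
    (#((Om n l k).filter (fun μ => supp n μ ∈ G)) : ℝ) = V (wt l k) G := by
  classical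
  rw [card_eq_sum_card_fiberwise (f := supp n) (t := G)
    (fun μ hμ => mem_coe.2 (mem_filter.1 (mem_coe.1 hμ)).2), V]
  push_cast
  refine sum_congr rfl fun S hS => ?_
  rw [wt, ← card_Cs]
  congr 2
  ext μ
  rw [mem_filter, mem_filter, mem_Om, mem_Cs]
  constructor
  · rintro ⟨⟨⟨m1, m2, m3⟩, -⟩, rfl⟩
    refine ⟨?_, fun x hx => mem_filter.2 ⟨mem_range.2 (m2 x hx), hx⟩, fun x hx => ⟨?_, m3 x⟩⟩
    · rw [supp, sum_filter_ne_zero, m1]
    · have := (mem_filter.1 hx).2; omega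
  · rintro ⟨m1, m2, m3⟩
    have e : supp n μ = S := by
      ext x
      rw [supp, mem_filter]
      exact ⟨fun h => m2 x h.2, fun h => ⟨hG S hS h, by have := (m3 x h).1; omega⟩⟩
    refine ⟨⟨⟨?_, fun x hx => mem_range.1 (hG S hS (m2 x hx)), fun x => ?_⟩, e ▸ hS⟩, e⟩
    · rw [← sum_filter_ne_zero, ← m1, ← e, supp]
    · by_cases hx : μ x = 0
      · omega
      · exact (m3 x (m2 x hx)).2

theorem main_fun {n l k t : ℕ} (hl : 2 ≤ l) (hk : 2 ≤ k) (ht : 1 ≤ t) (htk : t ≤ k)
    (hn : 2 * k ≤ n + t) : ∃ i, t + i ≤ k ∧ ∀ F ⊆ Om n l k,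
      (∀ μ ∈ F, ∀ ν ∈ F, t ≤ ∑ x ∈ range n, min (μ x) (ν x)) →
      #F ≤ #((Om n l k).filter (fun μ => supp n μ ∈ Afam n t i)) := by
  classical
  obtain ⟨i, hi, hw⟩ := wci hl hk ht htk hn
  refine ⟨i, hi, fun F hF hint => ?_⟩
  have h0 : HasKer n l k t #F (fun _ => l) := by
    refine ⟨F, hF, rfl, fun μ hμ ν hν => (hint μ hμ ν hν).trans (le_of_eq ?_)⟩
    refine sum_congr rfl fun x _ => ?_
    have := (mem_Om.1 (hF hμ)).2.2 x
    beta_reduce
    omega
  obtain ⟨F', h1, h2, h3⟩ := ker_one hn _ _ (fun _ => by omega) le_rfl h0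
  have hsub : ∀ A ∈ F'.image (supp n), A ⊆ range n := by
    intro A hA
    obtain ⟨μ, -, rfl⟩ := mem_image.1 hA
    exact filter_subset _ _
  have hFam : Fam n t (F'.image (supp n)) := by
    refine ⟨hsub, fun A hA B hB => ?_⟩
    obtain ⟨μ, hμ, rfl⟩ := mem_image.1 hA
    obtain ⟨ν, hν, rfl⟩ := mem_image.1 hB
    refine (h3 μ hμ ν hν).trans (le_of_eq ?_)
    rw [supp, supp, ← filter_and, card_filter, Ik]
    refine sum_congr rfl fun x _ => ?_
    split_ifs <;> omega
  have h4 := hw _ hFam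
  rw [← card_filter_supp hsub,
    ← card_filter_supp (n := n) (G := Afam n t i)
      (fun A hA => mem_powerset.1 (mem_filter.1 hA).1)] at h4
  rw [← h2]
  refine le_trans (card_le_card fun μ hμ => ?_) (Nat.cast_le.1 h4)
  exact mem_filter.2 ⟨h1 hμ, mem_image_of_mem _ hμ⟩

end Pool.Agent.Lib.MP_8815b4_co
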