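import Mathlib

/-!
Coefficients of powers of `1 + x + ... + x^(l-1)` and their log-concavity properties.
-/

namespace Pool.Agent.Lib.MP_8815b4_co

open Finset

/-- `cf l N e` is the coefficient of `x^e` in `(1 + x + ... + x^(l-1))^N`. -/
noncomputable def cf (l : ℕ) : ℕ → ℤ → ℝ
  | 0, e => if e = 0 then 1 else 0
  | N + 1, e => ∑ j ∈ range l, cf l N (e - j)

lemma cf_zero (l : ℕ) (e : ℤ) : cf l 0 e = if e = 0 then 1 else 0 := rfl

lemma cf_succ (l N : ℕ) (e : ℤ) : cf l (N + 1) e = ∑ j ∈ range l, cf l N (e - j) := rfl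

lemma cf_nonneg (l : ℕ) : ∀ (N : ℕ) (e : ℤ), 0 ≤ cf l N e
  | 0, e => by rw [cf_zero]; split_ifs <;> norm_num
  | N + 1, e => by rw [cf_succ]; exact sum_nonneg fun j _ => cf_nonneg l N _

lemma cf_neg (l : ℕ) : ∀ (N : ℕ) (e : ℤ), e < 0 → cf l N e = 0
  | 0, e, h => by rw [cf_zero, if_neg h.ne]
  | N + 1, e, h => by
    rw [cf_succ]
    exact sum_eq_zero fun j _ => cf_neg l N _ (by omega)

lemma cf_at_zero {l : ℕ} (hl : 1 ≤ l) : ∀ N : ℕ, cf l N 0 = 1
  | 0 => by simp [cf_zero]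
  | N + 1 => by
    rw [cf_succ, sum_eq_single 0]
    · simpa using cf_at_zero hl N
    · intro j _ hj
      exact cf_neg l N _ (by omega)
    · intro h
      exact absurd (mem_range.2 (by omega)) h

/-- A strong form of log-concavity (Polya frequency of order two). -/
def PF2 (γ : ℤ → ℝ) : Prop :=
  ∀ a' a b b' : ℤ, a' ≤ a → a ≤ b' → a + b = a' + b' → γ a' * γ b' ≤ γ a * γ b

lemma PF2_of_step {γ : ℤ → ℝ} (h : ∀ a b : ℤ, a ≤ b → γ (a - 1) * γ (b + 1) ≤ γ a * γ b) :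
    PF2 γ := by
  have key : ∀ (i : ℕ) (a b : ℤ), a ≤ b → γ (a - i) * γ (b + i) ≤ γ a * γ b := by
    intro i
    induction i with
    | zero => intro a b _; simp
    | succ i ih =>
      intro a b hab
      have h1 := h (a - i) (b + i) (by omega)
      have h2 := ih a b hab
      have e1 : a - ((i + 1 : ℕ) : ℤ) = a - i - 1 := by push_cast; ring
      have e2 : b + ((i + 1 : ℕ) : ℤ) = b + i + 1 := by push_cast; ring
      rw [e1, e2]
      exact h1.trans h2
  intro a' a b b' h1 h2 h3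
  rcases le_total a b with hab | hab
  · have := key (a - a').toNat a b hab
    have e1 : a - ((a - a').toNat : ℤ) = a' := by omega
    have e2 : b + ((a - a').toNat : ℤ) = b' := by omega
    rwa [e1, e2] at this
  · have := key (b - a').toNat b a hab
    have e1 : b - ((b - a').toNat : ℤ) = a' := by omega
    have e2 : a + ((b - a').toNat : ℤ) = b' := by omega
    rw [e1, e2] at this
    linarith [mul_comm (γ a) (γ b)]

lemma PF2_conv {γ : ℤ → ℝ} (hγ : PF2 γ) (l : ℕ) :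
    PF2 (fun x => ∑ j ∈ range l, γ (x - j)) := by
  apply PF2_of_step
  intro a b hab
  rcases l with _ | L
  · simp
  have e1 : ∑ j ∈ range (L + 1), γ (a - j) = γ a + ∑ j ∈ range L, γ (a - 1 - j) := by
    rw [sum_range_succ', add_comm]
    congr 1
    · simp
    · refine sum_congr rfl fun j _ => ?_
      congr 1; push_cast; ring
  have e2 : ∑ j ∈ range (L + 1), γ (a - 1 - j)
      = ∑ j ∈ range L, γ (a - 1 - j) + γ (a - 1 - L) := sum_range_succ _ _
  have e3 : ∑ j ∈ range (L + 1), γ (b - j) = ∑ j ∈ range L, γ (b - j) + γ (b - L) :=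
    sum_range_succ _ _
  have e4 : ∑ j ∈ range (L + 1), γ (b + 1 - j) = γ (b + 1) + ∑ j ∈ range L, γ (b - j) := by
    rw [sum_range_succ', add_comm]
    congr 1
    · simp
    · refine sum_congr rfl fun j _ => ?_
      congr 1; push_cast; ring
  have i1 : (∑ j ∈ range L, γ (a - 1 - j)) * γ (b + 1) ≤ γ a * ∑ j ∈ range L, γ (b - j) := by
    rw [sum_mul, mul_sum]
    refine sum_le_sum fun j _ => hγ _ _ _ _ (by omega) (by omega) (by ring)
  have i2 : γ (a - 1 - L) * ∑ j ∈ range L, γ (b - j)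
      ≤ (∑ j ∈ range L, γ (a - 1 - j)) * γ (b - L) := by
    rw [sum_mul, mul_sum]
    refine sum_le_sum fun j hj => ?_
    have := mem_range.1 hj
    exact hγ _ _ _ _ (by omega) (by omega) (by ring)
  have i3 : γ (a - 1 - L) * γ (b + 1) ≤ γ a * γ (b - L) :=
    hγ _ _ _ _ (by omega) (by omega) (by ring)
  rw [e1, e2, e3, e4]
  nlinarith [i1, i2, i3]

lemma cf_PF2 (l : ℕ) : ∀ N : ℕ, PF2 (cf l N)
  | 0 => by
    intro a' a b b' h1 h2 h3
    simp only [cf_zero]
    split_ifs <;> first | omega | norm_num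
  | N + 1 => PF2_conv (cf_PF2 l N) l

/-- The logarithmic-derivative identity. -/
lemma cf_deriv (l : ℕ) : ∀ (N : ℕ) (e : ℤ),
    (e : ℝ) * cf l (N + 1) e = (N + 1) * ∑ y ∈ range l, (y : ℝ) * cf l N (e - y)
  | 0, e => by
    rw [cf_succ, mul_sum]
    simp only [Nat.cast_zero, zero_add, one_mul]
    refine sum_congr rfl fun y _ => ?_
    rw [cf_zero]
    split_ifs with h
    · have : e = y := by omega
      rw [this]; simp
    · simp
  | N + 1, e => by
    have ih := cf_deriv l N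
    have h1 : (e : ℝ) * cf l (N + 1 + 1) e
        = ∑ j ∈ range l, (((e - j : ℤ) : ℝ) * cf l (N + 1) (e - j)
          + (j : ℝ) * cf l (N + 1) (e - j)) := by
      rw [cf_succ l (N + 1), mul_sum]
      refine sum_congr rfl fun j _ => ?_
      push_cast; ring
    have h2 : ∑ j ∈ range l, ((e - j : ℤ) : ℝ) * cf l (N + 1) (e - j)
        = (N + 1) * ∑ y ∈ range l, (y : ℝ) * cf l (N + 1) (e - y) := by
      simp_rw [ih]
      rw [← mul_sum, sum_comm]
      congr 1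
      refine sum_congr rfl fun y _ => ?_
      rw [cf_succ, mul_sum]
      refine sum_congr rfl fun j _ => ?_
      congr 2; ring
    rw [h1, sum_add_distrib, h2]
    push_cast; ring

lemma cf_drop {l : ℕ} (hl : 1 ≤ l) (N : ℕ) (e : ℤ) :
    ((N : ℝ) + 1 - e) * cf l (N + 1) e ≤ (N + 1) * cf l N e := by
  have h := cf_deriv l N e
  obtain ⟨L, rfl⟩ : ∃ L, l = L + 1 := ⟨l - 1, by omega⟩
  have h1 : cf (L + 1) (N + 1) e - cf (L + 1) N e
      ≤ ∑ y ∈ range (L + 1), (y : ℝ) * cf (L + 1) N (e - y) := by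
    rw [cf_succ, sum_range_succ', sum_range_succ']
    simp only [Nat.cast_zero, sub_zero, zero_mul, add_zero, add_sub_cancel_right]
    refine sum_le_sum fun y _ => ?_
    have := cf_nonneg (L + 1) N (e - ((y + 1 : ℕ) : ℤ))
    have hy : (1 : ℝ) ≤ ((y + 1 : ℕ) : ℝ) := by push_cast; linarith [Nat.cast_nonneg (α := ℝ) y]
    nlinarith
  have hN : (0 : ℝ) ≤ (N : ℝ) + 1 := by positivity
  nlinarith [mul_le_mul_of_nonneg_left h1 hN]

/-- The sum of `φ (x - i - j)` over `i + j + 1 < l`. -/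
noncomputable def Asum (l : ℕ) (φ : ℤ → ℝ) (x : ℤ) : ℝ :=
  ∑ p ∈ (range l ×ˢ range l).filter (fun p => p.1 + p.2 + 1 < l), φ (x - p.1 - p.2)

/-- The sum of `φ (x - i - j)` over `i, j < l` with `l ≤ i + j + 1`. -/
noncomputable def Tsum (l : ℕ) (φ : ℤ → ℝ) (x : ℤ) : ℝ :=
  ∑ p ∈ (range l ×ˢ range l).filter (fun p => ¬ (p.1 + p.2 + 1 < l)), φ (x - p.1 - p.2)

lemma cf_two (l N : ℕ) (x : ℤ) :
    cf l (N + 2) x = Asum l (cf l N) x + Tsum l (cf l N) x := by
  rw [Asum, Tsum, sum_filter_add_sum_filter_not, sum_product]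
  rfl

lemma sum_mul_eq_Asum (l : ℕ) (φ : ℤ → ℝ) (x : ℤ) :
    ∑ y ∈ range l, (y : ℝ) * φ (x + 1 - y) = Asum l φ x := by
  rcases l with _ | L
  · simp [Asum]
  have h := sum_range_diag_flip L (fun i j => φ (x - i - j))
  rw [sum_range_succ']
  simp only [Nat.cast_zero, zero_mul, add_zero]
  have e1 : ∑ y ∈ range L, ((y + 1 : ℕ) : ℝ) * φ (x + 1 - ((y + 1 : ℕ) : ℤ))
      = ∑ m ∈ range L, ∑ k ∈ range (m + 1), φ (x - k - ((m - k : ℕ) : ℤ)) := by
    refine sum_congr rfl fun m _ => ?_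
    rw [sum_congr rfl (g := fun _ => φ (x - m))]
    · simp only [sum_const, card_range, nsmul_eq_mul]
      congr 2; push_cast; ring
    · intro k hk
      have := mem_range.1 hk
      congr 1; omega
  rw [e1, h, Asum, sum_filter, sum_product, sum_range_succ]
  have e2 : ∑ j ∈ range (L + 1), (if L + j + 1 < L + 1 then φ (x - (L : ℕ) - (j : ℕ)) else 0)
      = 0 := sum_eq_zero fun j _ => if_neg (by omega)
  simp only [e2, add_zero]
  refine sum_congr rfl fun i hi => ?_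
  have hi' := mem_range.1 hi
  rw [← sum_filter]
  refine sum_congr ?_ fun _ _ => rfl
  ext j
  simp only [mem_range, mem_filter]
  omega

lemma Asum_nonneg (l : ℕ) {φ : ℤ → ℝ} (h : ∀ x, 0 ≤ φ x) (x : ℤ) : 0 ≤ Asum l φ x :=
  sum_nonneg fun _ _ => h _

lemma Tsum_nonneg (l : ℕ) {φ : ℤ → ℝ} (h : ∀ x, 0 ≤ φ x) (x : ℤ) : 0 ≤ Tsum l φ x :=
  sum_nonneg fun _ _ => h _

lemma le_Asum {l : ℕ} (hl : 2 ≤ l) {φ : ℤ → ℝ} (h : ∀ x, 0 ≤ φ x) (x : ℤ) :
    φ x ≤ Asum l φ x := by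
  have hm : ((0, 0) : ℕ × ℕ) ∈ (range l ×ˢ range l).filter (fun p => p.1 + p.2 + 1 < l) := by
    simp only [mem_filter, mem_product, mem_range]; omega
  have := single_le_sum (f := fun p : ℕ × ℕ => φ (x - p.1 - p.2)) (fun p _ => h _) hm
  simpa [Asum] using this

lemma Asum_Tsum (l N : ℕ) (x : ℤ) :
    Asum l (cf l N) x * Tsum l (cf l (N + 1)) (x - 1)
      ≤ Asum l (cf l (N + 1)) (x - 1) * Tsum l (cf l N) x := by
  rw [Asum, Tsum, Asum, Tsum, sum_mul_sum, sum_mul_sum]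
  refine sum_le_sum fun p hp => sum_le_sum fun q hq => ?_
  simp only [mem_filter, mem_product, mem_range] at hp hq
  rw [cf_succ, cf_succ, mul_sum, sum_mul]
  refine sum_le_sum fun j _ => ?_
  rw [mul_comm]
  exact cf_PF2 l N _ _ _ _ (by omega) (by omega) (by ring)

/-- `wt l k s` is the number of compositions of `k` into `s` parts from `[1, l]`. -/
noncomputable def wt (l k s : ℕ) : ℝ := cf l s ((k : ℤ) - s)

lemma wt_nonneg (l k s : ℕ) : 0 ≤ wt l k s := cf_nonneg _ _ _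

lemma wt_gt (l : ℕ) {k s : ℕ} (h : k < s) : wt l k s = 0 := cf_neg _ _ _ (by omega)

lemma wt_self {l : ℕ} (hl : 1 ≤ l) (k : ℕ) : wt l k k = 1 := by
  simp [wt, cf_at_zero hl]

lemma wt_zero (l : ℕ) {k : ℕ} (hk : 1 ≤ k) : wt l k 0 = 0 := by
  rw [wt, cf_zero, if_neg (by omega)]

lemma wt_deriv (l k b : ℕ) :
    ((k : ℝ) - (b + 1)) * wt l k (b + 1) = (b + 1) * Asum l (cf l b) ((k : ℤ) - b - 2) := by
  have h := cf_deriv l b ((k : ℤ) - (b + 1 : ℕ))
  rw [← sum_mul_eq_Asum, wt]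
  have e : ∀ y : ℕ, (k : ℤ) - b - 2 + 1 - y = (k : ℤ) - ((b + 1 : ℕ) : ℤ) - y := by
    intro y; push_cast; ring
  simp_rw [e]
  rw [← h]
  push_cast; ring

lemma wt_two (l k b : ℕ) :
    wt l k (b + 2) = Asum l (cf l b) ((k : ℤ) - b - 2) + Tsum l (cf l b) ((k : ℤ) - b - 2) := by
  rw [wt, cf_two]
  have e : (k : ℤ) - ((b + 2 : ℕ) : ℤ) = (k : ℤ) - b - 2 := by push_cast; ring
  rw [e]

lemma wt_pos_succ (l : ℕ) {k b : ℕ} (hb : b < k) (h : 0 < wt l k b) : 0 < wt l k (b + 1) := by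
  rcases b with _ | b
  · rw [wt_zero l (by omega)] at h; exact absurd h (lt_irrefl _)
  have h1 := wt_deriv l k b
  have h2 := wt_two l k b
  have h3 := Tsum_nonneg l (cf_nonneg l b) ((k : ℤ) - b - 2)
  have h4 : (0 : ℝ) < (k : ℝ) - (b + 1) := by
    have : ((b + 1 : ℕ) : ℝ) < k := by exact_mod_cast hb
    push_cast at this; linarith
  have h5 : 0 < Asum l (cf l b) ((k : ℤ) - b - 2) := by
    have : 0 < ((b : ℝ) + 1) * Asum l (cf l b) ((k : ℤ) - b - 2) := by
      rw [← h1]; positivity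
    exact (mul_pos_iff_of_pos_left (by positivity)).1 this
  show 0 < wt l k (b + 2)
  linarith

lemma wt_pos_of_le (l : ℕ) {k b c : ℕ} (hbc : b ≤ c) (hc : c ≤ k) (h : 0 < wt l k b) :
    0 < wt l k c := by
  induction c, hbc using Nat.le_induction with
  | base => exact h
  | succ c _ ih => exact wt_pos_succ l (by omega) (ih (by omega))

lemma wt_adj (l : ℕ) {k : ℕ} (hk : 1 ≤ k) (b : ℕ) :
    ((k : ℝ) - b) * wt l k b * wt l k (b + 2)
      ≤ ((k : ℝ) - (b + 1)) * wt l k (b + 1) * wt l k (b + 1) := by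
  by_cases hbk : k < b + 2
  · rw [wt_gt l hbk, mul_zero]
    rcases Nat.lt_or_ge k (b + 1) with h | h
    · rw [wt_gt l h]; simp
    · have : (k : ℝ) = b + 1 := by
        have : k = b + 1 := by omega
        rw [this]; push_cast; ring
      rw [this]; simp
  rcases b with _ | b
  · rw [wt_zero l hk]
    have : (0 : ℝ) ≤ (k : ℝ) - ((0 : ℕ) + 1) := by
      have : (1 : ℝ) ≤ k := by exact_mod_cast hk
      push_cast; linarith
    have h2 := wt_nonneg l k (0 + 1)
    simp only [mul_zero, zero_mul]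
    positivity
  have h1 := wt_deriv l k b
  have h2 := wt_deriv l k (b + 1)
  have h3 := wt_two l k b
  have h4 := wt_two l k (b + 1)
  have e : (k : ℤ) - ((b + 1 : ℕ) : ℤ) - 2 = (k : ℤ) - b - 2 - 1 := by push_cast; ring
  rw [e] at h2 h4
  have h5 := Asum_Tsum l b ((k : ℤ) - b - 2)
  set A := Asum l (cf l b) ((k : ℤ) - b - 2)
  set T := Tsum l (cf l b) ((k : ℤ) - b - 2)
  set A' := Asum l (cf l (b + 1)) ((k : ℤ) - b - 2 - 1)
  set T' := Tsum l (cf l (b + 1)) ((k : ℤ) - b - 2 - 1)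
  have hA : 0 ≤ A := Asum_nonneg l (cf_nonneg l b) _
  have hT : 0 ≤ T := Tsum_nonneg l (cf_nonneg l b) _
  have hA' : 0 ≤ A' := Asum_nonneg l (cf_nonneg l _) _
  have hT' : 0 ≤ T' := Tsum_nonneg l (cf_nonneg l _) _
  push_cast at h1 h2 ⊢
  rw [h1, h2]
  have e3 : wt l k (b + 1 + 1) = A + T := h3
  rw [h4, e3]
  have hb : (0 : ℝ) ≤ b := Nat.cast_nonneg b
  have h6 : A * (A' + T') ≤ A' * (A + T) := by nlinarith
  have h7 : 0 ≤ A' * (A + T) := by positivity
  nlinarith [mul_le_mul_of_nonneg_left h6 (show (0 : ℝ) ≤ b + 1 by positivity)]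

/-- The strong ultra-log-concavity property used below. -/
def ULC (k : ℕ) (h : ℕ → ℝ) : Prop :=
  ∀ b c : ℕ, b < c → ((k : ℝ) - b) * h b * h (c + 1) ≤ ((k : ℝ) - c) * h (b + 1) * h c

lemma wt_ULC (l : ℕ) {k : ℕ} (hk : 1 ≤ k) : ULC k (wt l k) := by
  intro b c hbc
  induction c, hbc using Nat.le_induction with
  | base =>
    have := wt_adj l hk b
    push_cast
    exact this
  | succ c hbc ih =>
    have hadj := wt_adj l hk c
    have n1 := wt_nonneg l k b
    have n2 := wt_nonneg l k (b + 1)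
    have n3 := wt_nonneg l k c
    have n4 := wt_nonneg l k (c + 1)
    have n5 := wt_nonneg l k (c + 1 + 1)
    by_cases hck : k < c + 1 + 1
    · rw [wt_gt l hck, mul_zero]
      rcases Nat.lt_or_ge k (c + 1) with h | h
      · rw [wt_gt l h]; simp
      · have : (k : ℝ) = ((c + 1 : ℕ) : ℝ) := by
          have : k = c + 1 := by omega
          rw [this]
        rw [this]; simp
    have hC : (0 : ℝ) ≤ (k : ℝ) - ((c + 1 : ℕ) : ℝ) := by
      have : ((c + 1 : ℕ) : ℝ) ≤ k := by exact_mod_cast (by omega : c + 1 ≤ k)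
      linarith
    rcases n1.eq_or_lt with h0 | hpos
    · rw [← h0]
      simp only [mul_zero, zero_mul]
      positivity
    have hc1 : 0 < wt l k (c + 1) := wt_pos_of_le l (by omega) (by omega) hpos
    push_cast at hC ⊢
    have h1 := mul_le_mul_of_nonneg_right ih n5
    have h2 := mul_le_mul_of_nonneg_left hadj n2
    have h3 : (((k : ℝ) - b) * wt l k b * wt l k (c + 1 + 1)) * wt l k (c + 1)
        ≤ (((k : ℝ) - (c + 1)) * wt l k (b + 1) * wt l k (c + 1)) * wt l k (c + 1) := by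
      have e : wt l k (c + 2) = wt l k (c + 1 + 1) := rfl
      rw [e] at h2
      nlinarith
    exact le_of_mul_le_mul_right h3 hc1

lemma wt_merge {l : ℕ} (hl : 2 ≤ l) {k b : ℕ} (hb : b < k) :
    (3 * (b : ℝ) - 2 * k + 2) * wt l k (b + 1) ≤ ((k : ℝ) - b) * wt l k b := by
  have hkb : (0 : ℝ) < (k : ℝ) - b := by
    have : (b : ℝ) < k := by exact_mod_cast hb
    linarith
  by_cases hneg : 3 * (b : ℝ) - 2 * k + 2 ≤ 0
  · have := wt_nonneg l k (b + 1)
    have := wt_nonneg l k b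
    nlinarith [mul_nonneg hkb.le (wt_nonneg l k b)]
  push Not at hneg
  rcases b with _ | b
  · have : (1 : ℝ) ≤ k := by exact_mod_cast hb
    push_cast at hneg; linarith
  have h1 := wt_deriv l k b
  have h2 := le_Asum hl (cf_nonneg l b) ((k : ℤ) - b - 2)
  have h3 := cf_drop (l := l) (by omega) b ((k : ℤ) - b - 2)
  have h4 := cf_drop (l := l) (by omega) (b + 1) ((k : ℤ) - b - 2)
  have e : wt l k (b + 1 + 1) = cf l (b + 1 + 1) ((k : ℤ) - b - 2) := by
    rw [wt]; congr 1; push_cast; ring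
  push_cast at h1 h3 h4 hneg hkb ⊢
  rw [h1, e]
  set X := cf l (b + 1 + 1) ((k : ℤ) - b - 2)
  set Y := cf l (b + 1) ((k : ℤ) - b - 2)
  set Z := cf l b ((k : ℤ) - b - 2)
  set A := Asum l (cf l b) ((k : ℤ) - b - 2)
  have hX : 0 ≤ X := cf_nonneg _ _ _
  have hb0 : (0 : ℝ) ≤ b := Nat.cast_nonneg b
  have hk2 : (b : ℝ) + 2 ≤ k := by exact_mod_cast hb
  set E : ℝ := (k : ℝ) - b - 2 with hE
  have hE0 : 0 ≤ E := by linarith
  have hbE : 0 ≤ (b : ℝ) + 1 - E := by linarith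
  have h5 : ((b : ℝ) + 1 - E) * (((b : ℝ) + 1 + 1 - E) * X)
      ≤ ((b : ℝ) + 1 - E) * ((b + 1 + 1) * Y) := mul_le_mul_of_nonneg_left h4 hbE
  have h6 : ((b : ℝ) + 1 + 1) * (((b : ℝ) + 1 - E) * Y) ≤ ((b : ℝ) + 1 + 1) * ((b + 1) * Z) :=
    mul_le_mul_of_nonneg_left h3 (by positivity)
  have h7 : ((b : ℝ) + 1 + 1) * ((b + 1) * Z) ≤ ((b : ℝ) + 1 + 1) * ((b + 1) * A) := by
    gcongr
  have h8 : ((b : ℝ) + 1 + 1) * (((b : ℝ) + 1 - 2 * E) * X)
      ≤ ((b : ℝ) + 1 + 1) * ((b + 1) * A) := by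
    nlinarith [mul_nonneg (mul_nonneg hE0 hE0) hX, mul_nonneg hE0 hX]
  have h9 := le_of_mul_le_mul_left h8 (by positivity)
  have e2 : 3 * ((b : ℝ) + 1) - 2 * k + 2 = (b : ℝ) + 1 - 2 * E := by rw [hE]; ring
  rw [e2]
  exact h9

end Pool.Agent.Lib.MP_8815b4_co
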